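import Mathlib

/-!
# Averaging complements
-/

namespace Pool.Agent.X299

open Module

variable {K V : Type*} [Field K] [CharZero K] [AddCommGroup V] [Module K V] {Γ : Type*} [Group Γ]

/-- A stable subspace with a complement which is stable under a subgroup of finite index has a
stable complement. -/
theorem exists_stable_compl (R : Γ →* Module.End K V) {U U' : Submodule K V}
    (hU : ∀ g, ∀ u ∈ U, R g u ∈ U) {Δ : Subgroup Γ} (hΔ : Δ.FiniteIndex) (hc : IsCompl U U')
    (hU' : ∀ g ∈ Δ, ∀ u ∈ U', R g u ∈ U') :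
    ∃ U'' : Submodule K V, IsCompl U U'' ∧ ∀ g, ∀ u ∈ U'', R g u ∈ U'' := by
  classical
  obtain ⟨π, hπU, hπ1, hπ2⟩ : ∃ π : Module.End K V, (∀ v, π v ∈ U) ∧ (∀ u ∈ U, π u = u) ∧
      ∀ u ∈ U', π u = 0 := by
    refine ⟨U.subtype ∘ₗ Submodule.projectionOnto U U' hc, fun v => ?_, fun u hu => ?_,
      fun u hu => ?_⟩
    · exact (Submodule.projectionOnto U U' hc v).2
    · have h := Submodule.projectionOnto_apply_left hc ⟨u, hu⟩
      rw [LinearMap.comp_apply]
      simp only at h
      rw [h]
      rfl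
    · have h := (Submodule.projectionOnto_apply_eq_zero_iff hc).2 hu
      rw [LinearMap.comp_apply, h, map_zero]
  have hcomm : ∀ g ∈ Δ, ∀ v, π (R g v) = R g (π v) := by
    intro g hg v
    obtain ⟨u, hu, u', hu', rfl⟩ := Submodule.mem_sup.1
      ((hc.sup_eq_top ▸ Submodule.mem_top : v ∈ U ⊔ U'))
    rw [map_add, map_add, map_add, hπ1 _ (hU g u hu), hπ2 _ (hU' g hg u' hu'), hπ1 u hu,
      hπ2 u' hu', add_zero, add_zero]
  have hinv : ∀ g v, R g⁻¹ (R g v) = v := by
    intro g v
    rw [← Module.End.mul_apply, ← map_mul, inv_mul_cancel, map_one, Module.End.one_apply]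
  have hinv' : ∀ g v, R g (R g⁻¹ v) = v := by
    intro g v
    rw [← Module.End.mul_apply, ← map_mul, mul_inv_cancel, map_one, Module.End.one_apply]
  have := hΔ
  have : Fintype (Γ ⧸ Δ) := Subgroup.fintypeQuotientOfFiniteIndex
  let F : Γ → Module.End K V := fun g => R g * π * R g⁻¹
  have hF : ∀ g, ∀ δ ∈ Δ, F (g * δ) = F g := by
    intro g δ hδ
    apply LinearMap.ext
    intro v
    simp only [F, Module.End.mul_apply]
    rw [mul_inv_rev, map_mul, map_mul, Module.End.mul_apply, Module.End.mul_apply,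
      hcomm δ⁻¹ (Δ.inv_mem hδ), hinv']
  let f : Γ ⧸ Δ → Module.End K V := fun q => F q.out
  have hf : ∀ g : Γ, f (g : Γ ⧸ Δ) = F g := by
    intro g
    obtain ⟨δ, hδ⟩ := QuotientGroup.mk_out_eq_mul Δ g
    simp only [f]
    rw [hδ, hF _ _ δ.2]
  let m : K := (Fintype.card (Γ ⧸ Δ) : K)
  have hm : m ≠ 0 := by
    have h0 : Fintype.card (Γ ⧸ Δ) ≠ 0 := Fintype.card_ne_zero
    exact Nat.cast_ne_zero.2 h0
  let P : Module.End K V := m⁻¹ • ∑ q, f q
  have hP1 : ∀ v, P v ∈ U := by
    intro v
    simp only [P, LinearMap.smul_apply, LinearMap.sum_apply]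
    apply Submodule.smul_mem
    apply Submodule.sum_mem
    intro q _
    exact hU _ _ (hπU _)
  have hP2 : ∀ u ∈ U, P u = u := by
    intro u hu
    simp only [P, LinearMap.smul_apply, LinearMap.sum_apply]
    have h1 : ∀ q, f q u = u := by
      intro q
      simp only [f, F, Module.End.mul_apply]
      rw [hπ1 _ (hU _ u hu), hinv']
    simp only [h1, Finset.sum_const, Finset.card_univ]
    rw [← Nat.cast_smul_eq_nsmul K, smul_smul, inv_mul_cancel₀ hm, one_smul]
  have hP3 : ∀ g v, P (R g v) = R g (P v) := by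
    intro g v
    simp only [P, LinearMap.smul_apply, LinearMap.sum_apply, map_smul, map_sum]
    congr 1
    have h1 : ∀ q, R g (f q v) = f (g • q) (R g v) := by
      intro q
      induction q using QuotientGroup.induction_on with
      | H h =>
        have h2 : (g • ((h : Γ) : Γ ⧸ Δ)) = ((g * h : Γ) : Γ ⧸ Δ) := rfl
        rw [h2, hf, hf]
        simp only [F, Module.End.mul_apply]
        rw [map_mul, mul_inv_rev, map_mul, Module.End.mul_apply, Module.End.mul_apply, hinv]
    simp only [h1]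
    exact (Fintype.sum_equiv (MulAction.toPerm g) (fun q => f (g • q) (R g v))
      (fun q => f q (R g v)) fun q => rfl).symm
  refine ⟨LinearMap.ker P, ?_, ?_⟩
  · have h1 := LinearMap.isCompl_of_proj (p := U) (f := P.codRestrict U hP1)
      (fun x => Subtype.ext (hP2 x x.2))
    rwa [LinearMap.ker_codRestrict] at h1
  · intro g u hu
    rw [LinearMap.mem_ker] at hu ⊢
    rw [hP3, hu, map_zero]

end Pool.Agent.X299
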