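import Pool.Agent.Y129.TDefs
import Pool.Agent.Y129.GDefs

/-!
# Galois actions on the cohomology of the powers of a variety: definitions
-/

open CategoryTheory AlgebraicGeometry Filter Topology

open scoped ENNReal

universe u v w

namespace Pool.Agent.X299

section Alg

variable {K : Type*} [Field K] {A : Type*} [Ring A] [Algebra K A] {Γ : Type*} [Group Γ]

/-- The dimension of the image of `T` in the quotient by `N`. -/
noncomputable def dimMod (T N : Submodule K A) : ℕ := Module.finrank K (T.map N.mkQ)

/-- The sum of the dimensions of the spans of the sets `C 0, …, C d`. -/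
noncomputable def spanDim (K : Type*) {A : Type*} [Field K] [Ring A] [Algebra K A]
    (C : ℕ → Set A) (d : ℕ) : ℕ :=
  ∑ j ∈ Finset.range (d + 1), Module.finrank K (Submodule.span K (C j))

/-- An action of the group `Γ` on the algebra `A` by automorphisms of `K`-algebras, together with a
character `χ` of `Γ`. -/
structure CharAct (K : Type*) (A : Type*) [Field K] [Ring A] [Algebra K A] (Γ : Type*) [Group Γ]
    where
  /-- the character -/
  χ : Γ →* Kˣ
  /-- the action -/
  ρ : Γ →* (A ≃ₐ[K] A)

namespace CharAct

/-- The Tate classes of codimension `j`: the elements `c` of `gr (2 * j)` such that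
`ρ g c = χ g ^ j • c` for all `g` in a subgroup of finite index. -/
def tate (R : CharAct K A Γ) (gr : ℕ → Submodule K A) (j : ℕ) : Submodule K A :=
  Pool.Agent.Y129.tateClasses R.χ gr R.ρ j

/-- The dimension of the space of all Tate classes (of the codimensions `0, …, d`). -/
noncomputable def dimTate (R : CharAct K A Γ) (gr : ℕ → Submodule K A) (d : ℕ) : ℕ :=
  ∑ j ∈ Finset.range (d + 1), Module.finrank K (R.tate gr j)

/-- The formal properties of the action of a Galois group on the cohomology of a variety of
dimension `d`, with orientation `tr`, where `C j` is the set of the classes of cycles of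
codimension `j`; see `IsGaloisAct`. -/
def Galois (R : CharAct K A Γ) (gr : ℕ → Submodule K A) (d : ℕ) (tr : A →ₗ[K] K)
    (C : ℕ → Set A) : Prop := Pool.Agent.TH125.Gal.IsGaloisAct R.χ gr d tr C R.ρ

/-- All Tate classes of codimension `j` are linear combinations of elements of `C j`. -/
def AllAlgebraic (R : CharAct K A Γ) (gr : ℕ → Submodule K A) (C : ℕ → Set A) : Prop :=
  ∀ j, R.tate gr j ≤ Submodule.span K (C j)

/-- Every nonzero Tate class has a nonzero product of degree zero with some Tate class. -/
def PerfectPairing (R : CharAct K A Γ) (gr : ℕ → Submodule K A) (tr : A →ₗ[K] K) : Prop :=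
  ∀ j, ∀ c ∈ R.tate gr j, c ≠ 0 → ∃ i, ∃ d ∈ R.tate gr i, tr (c * d) ≠ 0

/-- The subspace `U` is stable under `Γ`. -/
def Stable (R : CharAct K A Γ) (U : Submodule K A) : Prop := ∀ g, ∀ a ∈ U, R.ρ g a ∈ U

/-- Every subspace of one of the spaces `gr i` which is stable under `Γ` has a stable
complement. -/
def IsSemisimple (R : CharAct K A Γ) (gr : ℕ → Submodule K A) : Prop :=
  ∀ i, ∀ U ≤ gr i, R.Stable U → ∃ U' ≤ gr i, R.Stable U' ∧ U ⊓ U' = ⊥ ∧ U ⊔ U' = gr i

/-- Every line in one of the spaces `gr i` which is stable under `Γ` has even degree `i = 2 j`, and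
a subgroup of finite index acts on it by `χ ^ j`. -/
def OnlyCyclotomic (R : CharAct K A Γ) (gr : ℕ → Submodule K A) : Prop :=
  ∀ i, ∀ c ∈ gr i, c ≠ 0 → (∀ g, ∃ a : K, R.ρ g c = a • c) →
    ∃ j, i = 2 * j ∧ ∃ Δ : Subgroup Γ, Δ.FiniteIndex ∧ ∀ g ∈ Δ, R.ρ g c = (R.χ g : K) ^ j • c

/-- The elements `c` with `tr (c d) = 0` for all Tate classes `d`. -/
def null (R : CharAct K A Γ) (gr : ℕ → Submodule K A) (tr : A →ₗ[K] K) : Submodule K A :=
  ⨅ i, ⨅ d ∈ R.tate gr i, LinearMap.ker (tr ∘ₗ LinearMap.mulRight K d)

/-- The rank of the intersection form on the Tate classes: the dimension of the space of all Tate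
classes (of the codimensions `0, …, d`) modulo those which are orthogonal to all Tate classes. -/
noncomputable def rankTate (R : CharAct K A Γ) (gr : ℕ → Submodule K A) (tr : A →ₗ[K] K)
    (d : ℕ) : ℕ :=
  ∑ j ∈ Finset.range (d + 1), dimMod (R.tate gr j) (R.null gr tr)

/-- The homomorphism `f` is equivariant, and the characters agree. -/
def Compatible {B : Type*} [Ring B] [Algebra K B] (R : CharAct K A Γ) (S : CharAct K B Γ)
    (f : A →ₐ[K] B) : Prop :=
  R.χ = S.χ ∧ Pool.Agent.TH125.Gal.Intertwines f R.ρ S.ρ

end CharAct

end Alg

open Pool.Agent.H914 Pool.Agent.H914.VarClass Pool.Agent.H914.VarClass.Obj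
  Pool.Agent.H914.WeilCohomology Pool.Agent.H281R3.HT Pool.Agent.Y129

variable {k : Type u} [Field k] {𝒱 : VarClass k} {ops : CycleOps 𝒱}

/-- The group `Γ` acts on the cohomology algebras of all powers of `X` like a Galois group (`act n`
is the action on the cohomology of the product of `n + 1` copies of `X`, together with the
cyclotomic character), compatibly with the projections to the factors. -/
structure PowAct (W : WeilCohomology.{u, v} ops) (X : 𝒱.Obj) (Γ : Type w) [Group Γ] where
  /-- the actions -/
  act : ∀ n, CharAct W.K (W.H (pw X n)) Γ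
  galois : ∀ n, (act n).Galois (W.gr (pw X n)) (pw X n).dim (W.tr (pw X n))
    (algClasses W (pw X n))
  proj : ∀ n i, (act 0).Compatible (act n) (W.map (pj X n i))

namespace PowAct

variable {W : WeilCohomology.{u, v} ops} {X : 𝒱.Obj} {Γ : Type w} [Group Γ]

/-- The space of the Tate classes of codimension `j` on the product of `n + 1` copies of `X`. -/
noncomputable def tate (R : PowAct W X Γ) (n j : ℕ) : Submodule W.K (W.H (pw X n)) :=
  (R.act n).tate (W.gr (pw X n)) j

/-- The dimension of the space of all Tate classes on the product of `n + 1` copies of `X`. -/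
noncomputable def tateDim (R : PowAct W X Γ) (n : ℕ) : ℕ :=
  (R.act n).dimTate (W.gr (pw X n)) (pw X n).dim

/-- The rank of the intersection form on the space of all Tate classes on the product of `n + 1`
copies of `X`. -/
noncomputable def tateRank (R : PowAct W X Γ) (n : ℕ) : ℕ :=
  (R.act n).rankTate (W.gr (pw X n)) (W.tr (pw X n)) (pw X n).dim

/-- The Tate conjecture for all powers of `X`: all Tate classes are linear combinations of classes
of algebraic cycles. -/
def TateConjecture (R : PowAct W X Γ) : Prop :=
  ∀ n, (R.act n).AllAlgebraic (W.gr (pw X n)) (algClasses W (pw X n))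

/-- The pairing of the Tate classes is perfect on all powers of `X`. -/
def Perfect (R : PowAct W X Γ) : Prop :=
  ∀ n, (R.act n).PerfectPairing (W.gr (pw X n)) (W.tr (pw X n))

/-- The cohomology groups of all powers of `X` are semisimple representations of `Γ`. -/
def Semisimple (R : PowAct W X Γ) : Prop :=
  ∀ n, (R.act n).IsSemisimple (W.gr (pw X n))

/-- Every line in the cohomology `H^i` of a power of `X` which is stable under the whole group `Γ`
has even degree `i = 2 j`, and a subgroup of finite index acts on it by `χ ^ j`. (By the theory of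
Hodge-Tate characters this holds if `Γ` is the absolute Galois group of a finitely generated field
which has an embedding into the field of real numbers.) -/
def CyclotomicLines (R : PowAct W X Γ) : Prop :=
  ∀ n, (R.act n).OnlyCyclotomic (W.gr (pw X n))

/-- The quotient of the dimension of the space of all Tate classes and of the rank of the group of
all cycles modulo numerical equivalence on the product of `n + 1` copies of `X`. -/
noncomputable def ratio (R : PowAct W X Γ) (n : ℕ) : ℝ≥0∞ :=
  (R.tateDim n : ℝ≥0∞) / cycRank ops (pw X n)

/-- The class `c` on a power of `X` is a Tate class. -/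
def IsTate (R : PowAct W X Γ) (c : Σ m, W.H (pw X m)) : Prop := ∃ j, c.2 ∈ R.tate c.1 j

/-- All Tate classes on all powers of `X` are linear combinations of classes of algebraic cycles
and of images of the classes `c i` under algebraic correspondences. -/
def Generates (R : PowAct W X Γ) {r : ℕ} (c : Fin r → Σ m, W.H (pw X m)) : Prop :=
  ∀ n j, R.tate n j ≤ genBy W X c n

/-- There are `r < N` Tate classes `c i` on powers of `X` such that all Tate classes on all powers
of `X` are linear combinations of classes of algebraic cycles and of images of the classes `c i`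
under algebraic correspondences. -/
def GeneratedBelow (R : PowAct W X Γ) (N : ℕ∞) : Prop :=
  ∃ (r : ℕ) (c : Fin r → Σ m, W.H (pw X m)), (r : ℕ∞) + 1 ≤ N ∧
    (∀ i, R.IsTate (c i)) ∧ R.Generates c

end PowAct

/-- The dimension of the space spanned by all classes of algebraic cycles on `Y`. -/
noncomputable def algDim (W : WeilCohomology.{u, v} ops) (Y : 𝒱.Obj) : ℕ :=
  spanDim W.K (algClasses W Y) Y.dim

end Pool.Agent.X299
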