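import Pool.Agent.X299.Tate.Main
import Pool.Agent.X299.Tate.Pub

/-!
# The main results for bundled actions
-/

open CategoryTheory AlgebraicGeometry Filter Topology

open scoped ENNReal

universe u v w

namespace Pool.Agent.X299

open Module
open Pool.Agent.H914 Pool.Agent.H914.VarClass Pool.Agent.H914.VarClass.Obj
  Pool.Agent.H914.WeilCohomology Pool.Agent.H281R3.HT Pool.Agent.TH125.Gal
  Pool.Agent.Y129

variable {k : Type u} [Field k] {𝒱 : VarClass k} {ops : CycleOps 𝒱}
  {W : WeilCohomology.{u, v} ops} {X : 𝒱.Obj} {Γ : Type w} [Group Γ]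

lemma dimMod_add {K A : Type*} [Field K] [Ring A] [Algebra K A] [Module.Finite K A]
    (T N : Submodule K A) : dimMod T N + finrank K (T ⊓ N : Submodule K A) = finrank K T := by
  have h1 := LinearMap.finrank_range_add_finrank_ker (N.mkQ ∘ₗ T.subtype)
  have h2 : LinearMap.range (N.mkQ ∘ₗ T.subtype) = T.map N.mkQ := by
    rw [LinearMap.range_comp, Submodule.range_subtype]
  have h3 : finrank K (LinearMap.ker (N.mkQ ∘ₗ T.subtype)) =
      finrank K (T ⊓ N : Submodule K A) := by
    have h4 : (LinearMap.ker (N.mkQ ∘ₗ T.subtype)).map T.subtype = T ⊓ N := by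
      ext x
      constructor
      · rintro ⟨y, hy, rfl⟩
        refine ⟨y.2, ?_⟩
        rw [SetLike.mem_coe, LinearMap.mem_ker, LinearMap.comp_apply] at hy
        exact (Submodule.Quotient.mk_eq_zero _).1 hy
      · rintro ⟨hx, hx'⟩
        refine ⟨⟨x, hx⟩, ?_, rfl⟩
        rw [SetLike.mem_coe, LinearMap.mem_ker, LinearMap.comp_apply]
        exact (Submodule.Quotient.mk_eq_zero _).2 hx'
    rw [← h4]
    exact (Submodule.equivMapOfInjective _ (Submodule.subtype_injective _) _).finrank_eq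
  rw [h2, h3] at h1
  exact h1

namespace PowAct

/-- The character. -/
noncomputable def chi (R : PowAct W X Γ) : Γ →* W.Kˣ := (R.act 0).χ

/-- The actions. -/
noncomputable def rho (R : PowAct W X Γ) (n : ℕ) : Γ →* (W.H (pw X n) ≃ₐ[W.K] W.H (pw X n)) :=
  (R.act n).ρ

lemma chi_eq (R : PowAct W X Γ) (n : ℕ) : (R.act n).χ = R.chi := (R.proj n 0).1.symm

lemma power (R : PowAct W X Γ) : PowerAction W X R.chi R.rho where
  galois n := by
    have h := R.galois n
    rw [CharAct.Galois, R.chi_eq] at h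
    exact h
  proj n i := (R.proj n i).2

lemma tate_eq (R : PowAct W X Γ) (n j : ℕ) :
    R.tate n j = tateClasses R.chi (W.gr (pw X n)) (R.rho n) j := by
  rw [tate, CharAct.tate, R.chi_eq]
  rfl

lemma tate_eq' (R : PowAct W X Γ) (n j : ℕ) :
    (R.act n).tate (W.gr (pw X n)) j = tateClasses R.chi (W.gr (pw X n)) (R.rho n) j :=
  R.tate_eq n j

lemma tateDim_eq (R : PowAct W X Γ) (n : ℕ) :
    R.tateDim n = Pool.Agent.Y129.tateDim W X R.chi R.rho n := by
  rw [tateDim, CharAct.dimTate, Pool.Agent.Y129.tateDim]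
  refine Finset.sum_congr rfl fun j _ => ?_
  rw [R.tate_eq']

lemma conj_iff (R : PowAct W X Γ) : R.TateConjecture ↔
    ∀ n, TateAct R.chi (W.gr (pw X n)) (algClasses W (pw X n)) (R.rho n) := by
  refine forall_congr' fun n => ?_
  rw [CharAct.AllAlgebraic]
  simp only [R.tate_eq']
  exact ⟨fun h j c hc hc' => h j ⟨hc, hc'⟩, fun h j c hc => h j c hc.1 hc.2⟩

lemma perfect_iff' (R : PowAct W X Γ) : R.Perfect ↔ TatePerfect W X R.chi R.rho := by
  refine forall_congr' fun n => ?_
  rw [CharAct.PerfectPairing]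
  simp only [R.tate_eq']

lemma semi_iff (R : PowAct W X Γ) :
    R.Semisimple ↔ Pool.Agent.X299.Semisimple W X R.rho := Iff.rfl

lemma lines_iff (R : PowAct W X Γ) :
    R.CyclotomicLines ↔ Pool.Agent.X299.CyclotomicLines W X R.chi R.rho := by
  refine forall_congr' fun n => ?_
  rw [CharAct.OnlyCyclotomic, R.chi_eq]
  rfl

lemma tateRank_eq (R : PowAct W X Γ) (n : ℕ) :
    R.tateRank n = Pool.Agent.X299.tateRank W X R.chi R.rho n := by
  have h1 := tateRank_add (W := W) (X := X) (χ := R.chi) (ρ := R.rho) n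
  have h2 : finrank W.K
      (⨆ j, tateNull W X R.chi R.rho n j : Submodule W.K (W.H (pw X n))) =
      ∑ j ∈ Finset.range ((pw X n).dim + 1), finrank W.K (tateNull W X R.chi R.rho n j) := by
    apply finrank_iSup_eq_sum
    · exact (indep_even W (pw X n)).mono fun j => (tateNull_le n j).trans (tateClasses_le n j)
    · intro j hj
      rw [eq_bot_iff]
      refine ((tateNull_le n j).trans (tateClasses_le n j)).trans (le_of_eq ?_)
      exact W.gr_eq_bot (pw X n) (2 * j) (by omega)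
  have h3 : R.tateRank n + ∑ j ∈ Finset.range ((pw X n).dim + 1),
      finrank W.K (tateNull W X R.chi R.rho n j) = R.tateDim n := by
    rw [tateRank, CharAct.rankTate, ← Finset.sum_add_distrib, tateDim, CharAct.dimTate]
    refine Finset.sum_congr rfl fun j _ => ?_
    have h4 : (R.act n).tate (W.gr (pw X n)) j ⊓ (R.act n).null (W.gr (pw X n)) (W.tr (pw X n)) =
        tateNull W X R.chi R.rho n j := by
      ext c
      rw [Submodule.mem_inf, R.tate_eq', CharAct.null]
      simp only [Submodule.mem_iInf, LinearMap.mem_ker, LinearMap.comp_apply,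
        LinearMap.mulRight_apply, R.tate_eq']
      rfl
    rw [← h4]
    exact dimMod_add _ _
  rw [R.tateDim_eq] at h3
  omega

/-- **The index law for Tate classes.** -/
theorem index [Nontrivial (W.H X)] (R : PowAct W X Γ) :
    ∃ N : ℕ∞, 1 ≤ N ∧ Tendsto R.ratio atTop (𝓝 (N : ℝ≥0∞)) ∧
      (∀ n, R.ratio (2 * n + 1) ≤ (N : ℝ≥0∞)) ∧
      (N = 1 ↔ R.TateConjecture ∧ ∀ n, HomEqNum W (pw X n)) ∧
      (N ≠ ⊤ → (∀ n, HomEqNum W (pw X n)) ∧ R.Perfect ∧ R.GeneratedBelow N) := by
  obtain ⟨N, h1, h2, h3, h4, h5, -⟩ := index_law R.power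
  have hr : ∀ n, R.ratio n =
      (Pool.Agent.Y129.tateDim W X R.chi R.rho n : ℝ≥0∞) / cycRank ops (pw X n) := by
    intro n
    rw [ratio, R.tateDim_eq]
  refine ⟨N, h1, ?_, fun n => ?_, ?_, fun hN => ⟨(h5 hN).1, R.perfect_iff'.2 (h5 hN).2.1, ?_⟩⟩
  · rw [show R.ratio = fun n => _ from funext hr]
    exact h2
  · rw [hr]
    exact h3 n
  · rw [h4, R.conj_iff]
    exact forall_and
  · obtain ⟨r, c, hr, hc, hgen⟩ := (h5 hN).2.2.2
    refine ⟨r, c, hr, fun i => ?_, fun n j => ?_⟩
    · obtain ⟨j, hj⟩ := hc i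
      exact ⟨j, (R.tate_eq _ _).symm ▸ hj⟩
    · rw [R.tate_eq]
      exact hgen n j

/-- **The zero-one law for semisimplicity.** -/
theorem semisimple_zero_one [Nontrivial (W.H X)] (R : PowAct W X Γ) (hl : R.CyclotomicLines) :
    (∀ n, cycRank ops (pw X n) ≤ R.tateRank n ∧ R.tateRank n ≤ R.tateDim n ∧
      0 < R.tateDim n) ∧
    ((R.Semisimple ∧ ∀ n, R.tateRank n = R.tateDim n) ∨
      (¬ R.Semisimple ∧
        Tendsto (fun n => (R.tateRank n : ℝ) / R.tateDim n) atTop (𝓝 0))) := by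
  simp only [R.tateRank_eq, R.tateDim_eq, R.semi_iff]
  exact semisimple_law R.power inferInstance (R.lines_iff.1 hl)

/-- **The zero-one-half law.** -/
theorem half [Nontrivial (W.H X)] (R : PowAct W X Γ) (hs : R.Semisimple) :
    R.TateConjecture ∨ ∀ ε : ℝ, 0 < ε → ∃ n₀ : ℕ, ∀ n ≥ n₀,
      (algDim W (pw X n) : ℝ) ≤ (1 / 2 + ε) * R.tateDim n := by
  obtain ⟨N, -, -, -, -, -, h6⟩ := index_law R.power
  rw [R.conj_iff]
  refine (h6 (perfect_of_semisimple R.power (R.semi_iff.1 hs))).imp id fun h ε hε => ?_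
  obtain ⟨n₀, hn₀⟩ := h ε hε
  refine ⟨n₀, fun n hn => ?_⟩
  have h1 := hn₀ n hn
  rw [R.tateDim_eq, algDim, spanDim]
  push_cast
  exact h1

end PowAct

end Pool.Agent.X299
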