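import Mathlib

/-!
# Stable complements from alternating forms
-/

namespace Pool.Agent.X299

open Module

variable {K V : Type*} [Field K] [AddCommGroup V] [Module K V]

/-- The map `v ↦ φ (v, ·, …, ·)` to the alternating forms on `U`. -/
noncomputable def slice (U : Submodule K V) {r : ℕ} (φ : V [⋀^Fin (r + 1)]→ₗ[K] K) :
    V →ₗ[K] (U [⋀^Fin r]→ₗ[K] K) where
  toFun v := (φ.curryLeft v).compLinearMap U.subtype
  map_add' v v' := by
    ext w
    simp
  map_smul' c v := by
    ext w
    simp

lemma slice_apply (U : Submodule K V) {r : ℕ} (φ : V [⋀^Fin (r + 1)]→ₗ[K] K) (v : V)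
    (w : Fin r → U) : slice U φ v w = φ (Matrix.vecCons v (fun i => (w i : V))) := rfl

lemma finrank_alt (U : Submodule K V) [FiniteDimensional K U] {r : ℕ}
    (hr : finrank K U = r + 1) : finrank K (U [⋀^Fin r]→ₗ[K] K) = r + 1 := by
  have h1 := (exteriorPower.alternatingMapLinearEquiv (R := K) (M := U) (N := K) (n := r)).finrank_eq
  rw [h1]
  have h2 : finrank K (⋀[K]^r U →ₗ[K] K) = finrank K (⋀[K]^r U) := Subspace.dual_finrank_eq
  rw [h2, exteriorPower.finrank_eq, hr, Nat.choose_succ_self_right]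

/-- The vectors which are orthogonal to `U`. -/
noncomputable def sliceKer (U : Submodule K V) {r : ℕ} (φ : V [⋀^Fin (r + 1)]→ₗ[K] K) :
    Submodule K V := LinearMap.ker (slice U φ)

lemma sliceKer_stable {U : Submodule K V} {r : ℕ} {φ : V [⋀^Fin (r + 1)]→ₗ[K] K}
    {g h : V →ₗ[K] V} (hgh : ∀ v, g (h v) = v) {c : K}
    (hφ : ∀ v, φ (fun i => g (v i)) = c * φ v) (hU : ∀ u ∈ U, h u ∈ U) {v : V}
    (hv : v ∈ sliceKer U φ) : g v ∈ sliceKer U φ := by
  rw [sliceKer, LinearMap.mem_ker] at hv ⊢
  ext w
  rw [slice_apply]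
  have h1 : Matrix.vecCons (g v) (fun i => (w i : V)) =
      fun i => g (Matrix.vecCons v (fun j => h (w j : V)) i) := by
    funext i
    refine Fin.cases ?_ (fun j => ?_) i
    · rfl
    · simp [hgh]
  rw [h1, hφ]
  have h2 := congrArg (fun f => f (fun j => (⟨h (w j : V), hU _ (w j).2⟩ : U))) hv
  simp only [slice_apply] at h2
  rw [h2]
  simp

lemma sliceKer_disjoint {U : Submodule K V} {r : ℕ} {φ : V [⋀^Fin (r + 1)]→ₗ[K] K}
    (b : Basis (Fin (r + 1)) K U) (hφ : φ (fun i => (b i : V)) ≠ 0) :
    Disjoint U (sliceKer U φ) := by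
  rw [Submodule.disjoint_def]
  intro v hv hv'
  rw [sliceKer, LinearMap.mem_ker] at hv'
  have h1 : ∀ i, b.repr ⟨v, hv⟩ i = 0 := by
    intro i
    have h2 := congrArg (fun f => f (fun j => b (i.succAbove j))) hv'
    simp only [slice_apply] at h2
    have h3 : Matrix.vecCons v (fun j => ((b (i.succAbove j) : U) : V)) =
        (Function.update (fun j => (b j : V)) i v) ∘ (i.cycleRange.symm) := by
      funext j
      refine Fin.cases ?_ (fun j => ?_) j
      · simp
      · simp [Function.update_of_ne (Fin.succAbove_ne i j)]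
    rw [h3, φ.map_perm] at h2
    have h4 : φ (Function.update (fun j => (b j : V)) i v) = 0 := by
      have h5 : Equiv.Perm.sign (i.cycleRange.symm : Equiv.Perm (Fin (r + 1))) •
        φ (Function.update (fun j => (b j : V)) i v) = 0 := h2
      rcases Int.units_eq_one_or (Equiv.Perm.sign (i.cycleRange.symm : Equiv.Perm (Fin (r + 1))))
        with h6 | h6
      · rw [h6, one_smul] at h5; exact h5
      · rw [h6] at h5
        simpa using h5
    have h5 : v = ∑ j, b.repr ⟨v, hv⟩ j • (b j : V) := by
      have h6 := congrArg (fun x : U => (x : V)) (b.sum_repr ⟨v, hv⟩)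
      simp only [Submodule.coe_sum, Submodule.coe_smul] at h6
      exact h6.symm
    rw [h5, φ.map_update_sum] at h4
    rw [Finset.sum_eq_single i] at h4
    · rw [φ.map_update_smul, Function.update_eq_self, smul_eq_mul] at h4
      exact (mul_eq_zero.1 h4).resolve_right hφ
    · intro j _ hj
      rw [φ.map_update_smul, φ.map_update_self _ hj.symm, smul_zero]
    · intro h; exact absurd (Finset.mem_univ i) h
  have h2 : (⟨v, hv⟩ : U) = 0 := by
    apply b.repr.injective
    ext i
    rw [h1 i, map_zero]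
    rfl
  exact congrArg Subtype.val h2

lemma sliceKer_isCompl [FiniteDimensional K V] {U : Submodule K V} {r : ℕ}
    {φ : V [⋀^Fin (r + 1)]→ₗ[K] K}
    (b : Basis (Fin (r + 1)) K U) (hφ : φ (fun i => (b i : V)) ≠ 0) :
    IsCompl U (sliceKer U φ) := by
  have hd := sliceKer_disjoint b hφ
  have hr : finrank K U = r + 1 := by
    rw [Module.finrank_eq_card_basis b, Fintype.card_fin]
  refine ⟨hd, ?_⟩
  rw [codisjoint_iff]
  have h1 := LinearMap.finrank_range_add_finrank_ker (slice U φ)
  have hfin : FiniteDimensional K (U [⋀^Fin r]→ₗ[K] K) := by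
    apply Module.finite_of_finrank_pos
    rw [finrank_alt U hr]
    omega
  have h2 : finrank K (LinearMap.range (slice U φ)) ≤ r + 1 := by
    rw [← finrank_alt U hr]
    exact Submodule.finrank_le _
  have h3 := Submodule.finrank_sup_add_finrank_inf_eq U (sliceKer U φ)
  rw [hd.eq_bot, finrank_bot, add_zero] at h3
  apply Submodule.eq_top_of_finrank_eq
  apply le_antisymm (Submodule.finrank_le _)
  rw [h3, hr, sliceKer]
  omega

end Pool.Agent.X299
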