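import Pool.Agent.Y129.TDefs

/-!
# Tate classes on the powers of a variety and semisimplicity: definitions
-/

open CategoryTheory AlgebraicGeometry

universe u v w

namespace Pool.Agent.X299

open Pool.Agent.H914 Pool.Agent.H914.VarClass Pool.Agent.H914.VarClass.Obj
  Pool.Agent.H914.WeilCohomology Pool.Agent.H281R3.HT Pool.Agent.Y129

variable {k : Type u} [Field k] {𝒱 : VarClass k} {ops : CycleOps 𝒱}

/-- Every line in the cohomology `H^i` of a power of `X` which is stable under the whole group `Γ`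
has even degree `i = 2 j`, and a subgroup of finite index acts on it by `χ ^ j`. (By the theory of
Hodge-Tate characters this holds if `Γ` is the absolute Galois group of a finitely generated field
which has an embedding into the field of real numbers.) -/
def CyclotomicLines (W : WeilCohomology.{u, v} ops) (X : 𝒱.Obj) {Γ : Type w} [Group Γ]
    (χ : Γ →* W.Kˣ) (ρ : ∀ n, Γ →* (W.H (pw X n) ≃ₐ[W.K] W.H (pw X n))) : Prop :=
  ∀ n i, ∀ c ∈ W.gr (pw X n) i, c ≠ 0 → (∀ g, ∃ a : W.K, ρ n g c = a • c) →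
    ∃ j, i = 2 * j ∧ ∃ Δ : Subgroup Γ, Δ.FiniteIndex ∧ ∀ g ∈ Δ, ρ n g c = (χ g : W.K) ^ j • c

/-- The cohomology groups of all powers of `X` are semisimple representations of `Γ`: every stable
subspace has a stable complement. -/
def Semisimple (W : WeilCohomology.{u, v} ops) (X : 𝒱.Obj) {Γ : Type w} [Group Γ]
    (ρ : ∀ n, Γ →* (W.H (pw X n) ≃ₐ[W.K] W.H (pw X n))) : Prop :=
  ∀ n i, ∀ U ≤ W.gr (pw X n) i, (∀ g, ∀ a ∈ U, ρ n g a ∈ U) →
    ∃ U' ≤ W.gr (pw X n) i, (∀ g, ∀ a ∈ U', ρ n g a ∈ U') ∧ U ⊓ U' = ⊥ ∧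
      U ⊔ U' = W.gr (pw X n) i

/-- The pairing of the Tate classes on every power of `X` is perfect: for every nonzero Tate class
`c` there is a Tate class `d` with `tr (c d) ≠ 0`. -/
def TatePerfect (W : WeilCohomology.{u, v} ops) (X : 𝒱.Obj) {Γ : Type w} [Group Γ]
    (χ : Γ →* W.Kˣ) (ρ : ∀ n, Γ →* (W.H (pw X n) ≃ₐ[W.K] W.H (pw X n))) : Prop :=
  ∀ n j, ∀ c ∈ tateClasses χ (W.gr (pw X n)) (ρ n) j, c ≠ 0 →
    ∃ i, ∃ d ∈ tateClasses χ (W.gr (pw X n)) (ρ n) i, W.tr (pw X n) (c * d) ≠ 0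

/-- The Tate classes of codimension `j` on the product of `n + 1` copies of `X` which are
numerically trivial among the Tate classes: `tr (c d) = 0` for all Tate classes `d`. -/
def tateNull (W : WeilCohomology.{u, v} ops) (X : 𝒱.Obj) {Γ : Type w} [Group Γ]
    (χ : Γ →* W.Kˣ) (ρ : ∀ n, Γ →* (W.H (pw X n) ≃ₐ[W.K] W.H (pw X n))) (n j : ℕ) :
    Submodule W.K (W.H (pw X n)) where
  carrier := {c | c ∈ tateClasses χ (W.gr (pw X n)) (ρ n) j ∧
    ∀ i, ∀ d ∈ tateClasses χ (W.gr (pw X n)) (ρ n) i, W.tr (pw X n) (c * d) = 0}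
  zero_mem' := ⟨zero_mem _, fun i t _ => by rw [zero_mul, map_zero]⟩
  add_mem' := fun {a b} ha hb => ⟨add_mem ha.1 hb.1, fun i t ht => by
    rw [add_mul, map_add, ha.2 i t ht, hb.2 i t ht, add_zero]⟩
  smul_mem' := fun r a ha => ⟨Submodule.smul_mem _ _ ha.1, fun i t ht => by
    rw [smul_mul_assoc, map_smul, ha.2 i t ht, smul_zero]⟩

/-- The dimension of the space of all Tate classes (in all codimensions) on the product of `n + 1`
copies of `X`, modulo those which are numerically trivial among the Tate classes. This is the rank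
of the intersection form on the Tate classes. -/
noncomputable def tateRank (W : WeilCohomology.{u, v} ops) (X : 𝒱.Obj) {Γ : Type w} [Group Γ]
    (χ : Γ →* W.Kˣ) (ρ : ∀ n, Γ →* (W.H (pw X n) ≃ₐ[W.K] W.H (pw X n))) (n : ℕ) : ℕ :=
  ∑ j ∈ Finset.range ((pw X n).dim + 1), Module.finrank W.K
    (tateClasses χ (W.gr (pw X n)) (ρ n) j ⧸
      (tateNull W X χ ρ n j).submoduleOf (tateClasses χ (W.gr (pw X n)) (ρ n) j))

end Pool.Agent.X299
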