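import Pool.Agent.X299.Tate.SysOf

/-!
# The index of a system of classes on the powers of a variety and nondegeneracy
-/

open CategoryTheory AlgebraicGeometry Filter Topology

open scoped ENNReal

universe u v

namespace Pool.Agent.X299

open Module
open Pool.Agent.H914 Pool.Agent.H914.VarClass Pool.Agent.H914.VarClass.Obj
  Pool.Agent.H914.WeilCohomology Pool.Agent.H281R3.HT Pool.Agent.Y133.Half
  Pool.Agent.W536.RR

variable {k : Type u} [Field k] {𝒱 : VarClass k} {ops : CycleOps 𝒱}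
  {W : WeilCohomology.{u, v} ops} {X Y Z Z' P Q : 𝒱.Obj}

/-- The rank of the intersection form on the algebraic classes is at most the rank of the
intersection form of a bigger system. -/
lemma a_le_a {S T : Sys W} (hST : ∀ Z, S.C Z ≤ T.C Z) (Z : 𝒱.Obj) : S.a Z ≤ T.a Z := by
  let i : S.C Z →ₗ[W.K] T.C Z := Submodule.inclusion (hST Z)
  have h1 : S.F Z 1 = i.dualMap ∘ₗ (T.F Z 1) ∘ₗ i := rfl
  change finrank W.K (LinearMap.range (S.F Z 1)) ≤ finrank W.K (LinearMap.range (T.F Z 1))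
  rw [h1, LinearMap.range_comp]
  refine (Submodule.finrank_map_le _ _).trans ?_
  exact Submodule.finrank_mono (LinearMap.range_comp_le_range _ _)

lemma num_bot_iso (T : Sys W) (θ : Z' ≅ Z) : T.Num Z' = ⊥ ↔ T.Num Z = ⊥ := by
  have h1 := T.a_add_num Z
  have h2 := T.a_add_num Z'
  have h3 : T.a Z' = T.a Z := T.a_iso θ
  have h4 : finrank W.K (T.C Z') = finrank W.K (T.C Z) := T.finrank_C_iso θ
  rw [← Submodule.finrank_eq_zero (R := W.K), ← Submodule.finrank_eq_zero (R := W.K)]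
  omega

lemma nondeg_iff (T : Sys W) (Z : 𝒱.Obj) : Sys.Nondeg T Z ↔ T.Num Z = ⊥ := by
  constructor
  · intro h
    rw [eq_bot_iff]
    rintro x ⟨hx, hx'⟩
    exact h x hx hx'
  · intro h x hx hx'
    have h1 : x ∈ T.Num Z := ⟨hx, hx'⟩
    rw [h] at h1
    exact h1

variable {G : ∀ n, Submodule W.K (W.H (Pool.Agent.Y129.pw X n))}

/-- The pairing on the members of the system is perfect. -/
def PairsPerfectly (W : WeilCohomology.{u, v} ops) (X : 𝒱.Obj)
    (G : ∀ n, Submodule W.K (W.H (Pool.Agent.Y129.pw X n))) : Prop :=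
  ∀ n, ∀ c ∈ G n, (∀ d ∈ G n, W.tr (Pool.Agent.Y129.pw X n) (c * d) = 0) → c = 0

lemma perfect_iff (hG : PowSys W X G) (hX : ∃ z ∈ G 0, W.tr X z = 1) :
    PairsPerfectly W X G ↔ ∀ n, (sysOf hG hX).Num (pw X n) = ⊥ := by
  have h1 : ∀ n, (sysOf hG hX).C (Pool.Agent.Y129.pw X n) = G n := fun n => hull_pw hG n
  have h2 : PairsPerfectly W X G ↔ ∀ n, (sysOf hG hX).Num (Pool.Agent.Y129.pw X n) = ⊥ := by
    refine forall_congr' fun n => ?_
    rw [← nondeg_iff]
    unfold Sys.Nondeg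
    rw [h1]
  rw [h2]
  exact forall_congr' fun n => num_bot_iso _ (pwIso129 X n)

/-- If the index is finite, the pairing on the members of the system is perfect. -/
theorem perfect_of_index [Nontrivial (W.H X)] (hG : PowSys W X G) {N : ℕ∞}
    (hN : Tendsto (fun n => (finrank W.K (G n) : ℝ≥0∞) / cycRank ops (Pool.Agent.Y129.pw X n))
      atTop (𝓝 (N : ℝ≥0∞))) (hN' : N ≠ ⊤) : PairsPerfectly W X G := by
  have hidx : Pool.Agent.Y129.IsIndex W X G N := by
    rw [Pool.Agent.Y129.IsIndex]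
    simp only [Pool.Agent.Y129.numRank_eq_sum]
    exact hN
  have hX : ∃ z ∈ G 0, W.tr X z = 1 := by
    obtain ⟨z, hz, hz1⟩ := Pool.Agent.Y129.exists_pt_of_finite hG.alg hidx hN'
    exact ⟨z, hG.alg 0 hz, hz1⟩
  rw [perfect_iff hG hX]
  set T := sysOf hG hX with hT
  rcases T.num_or T (fun _ => le_rfl) X with h | h
  · exact h
  exfalso
  apply hN'
  have h1 : ∀ n, T.C (Pool.Agent.Y129.pw X n) = G n := fun n => hull_pw hG n
  have h2 : ∀ n, cycRank ops (Pool.Agent.Y129.pw X n) ≤ T.a (pw X n) := by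
    intro n
    rw [← numDim_eq_cycRank W]
    have h3 : (algSys W).a (Pool.Agent.Y129.pw X n) = (algSys W).a (pw X n) :=
      (algSys W).a_iso (pwIso129 X n)
    refine le_trans (le_of_eq h3) (a_le_a (fun Z => ?_) _)
    exact alg_le_hull hG hX Z
  have h3 : ∀ n, finrank W.K (T.C (pw X n)) = finrank W.K (G n) := by
    intro n
    rw [← T.finrank_C_iso (pwIso129 X n), h1]
  have h4 : Tendsto (fun n => (finrank W.K (G n) : ℝ≥0∞) /
      cycRank ops (Pool.Agent.Y129.pw X n)) atTop (𝓝 ⊤) := by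
    rw [ENNReal.tendsto_nhds_top_iff_nat]
    intro M
    obtain ⟨n₀, hn₀⟩ := h (M + 1)
    filter_upwards [eventually_ge_atTop n₀] with n hn
    have h5 := hn₀ n hn
    rw [h3] at h5
    have h6 : (M + 1) * cycRank ops (Pool.Agent.Y129.pw X n) ≤ finrank W.K (G n) :=
      (Nat.mul_le_mul_left _ (h2 n)).trans h5
    have htn : 0 < finrank W.K (G n) := by
      have h7 := Pool.Agent.Y129.nontrivial_pw (W := W) (X := X) n
      rw [Module.finrank_pos_iff]
      exact ⟨⟨⟨1, hG.alg n one_mem_algSpan⟩, 0, fun h => one_ne_zero (congrArg Subtype.val h)⟩⟩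
    rcases Nat.eq_zero_or_pos (cycRank ops (Pool.Agent.Y129.pw X n)) with h7 | h7
    · rw [h7, Nat.cast_zero, ENNReal.div_zero (by exact_mod_cast htn.ne')]
      exact ENNReal.natCast_lt_top M
    · have h8 : ((M + 1 : ℕ) : ℝ≥0∞) ≤ (finrank W.K (G n) : ℝ≥0∞) /
          cycRank ops (Pool.Agent.Y129.pw X n) := by
        rw [ENNReal.le_div_iff_mul_le (Or.inl (by exact_mod_cast h7.ne'))
          (Or.inl (ENNReal.natCast_ne_top _))]
        exact_mod_cast h6
      exact lt_of_lt_of_le (by exact_mod_cast Nat.lt_succ_self M) h8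
  exact ENat.toENNReal_eq_top.1 (tendsto_nhds_unique hN h4)

/-- **Zero-one law for the rank of the pairing.** -/
theorem zero_one (hG : PowSys W X G) (hX : ∃ z ∈ G 0, W.tr X z = 1) :
    PairsPerfectly W X G ∨ ∀ N : ℕ, ∃ n₀ : ℕ, ∀ n ≥ n₀,
      N * (sysOf hG hX).a (Pool.Agent.Y129.pw X n) ≤ finrank W.K (G n) := by
  rw [perfect_iff hG hX]
  set T := sysOf hG hX with hT
  rcases T.num_or T (fun _ => le_rfl) X with h | h
  · exact Or.inl h
  right
  intro N
  obtain ⟨n₀, hn₀⟩ := h N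
  refine ⟨n₀, fun n hn => ?_⟩
  have h1 := hn₀ n hn
  have h2 : T.C (Pool.Agent.Y129.pw X n) = G n := hull_pw hG n
  rw [← T.finrank_C_iso (pwIso129 X n), h2] at h1
  have h3 : T.a (Pool.Agent.Y129.pw X n) = T.a (pw X n) := T.a_iso (pwIso129 X n)
  rw [h3]
  exact h1

/-- The half law for systems on the powers of `X` with a perfect pairing. -/
theorem half_of_perfect (hG : PowSys W X G) (hX : ∃ z ∈ G 0, W.tr X z = 1)
    (h : PairsPerfectly W X G) :
    (∀ n, G n = algSpan W (Pool.Agent.Y129.pw X n)) ∨ ∀ ε : ℝ, 0 < ε → ∃ n₀ : ℕ, ∀ n ≥ n₀,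
      (finrank W.K (algSpan W (Pool.Agent.Y129.pw X n)) : ℝ) ≤
        (1 / 2 + ε) * finrank W.K (G n) := by
  rw [perfect_iff hG hX] at h
  set T := sysOf hG hX with hT
  have hST : ∀ Z, (algSys W).C Z ≤ T.C Z := fun Z => alg_le_hull hG hX Z
  have h1 : ∀ n, T.C (Pool.Agent.Y129.pw X n) = G n := fun n => hull_pw hG n
  have h3 : ∀ n, finrank W.K (T.C (pw X n)) = finrank W.K (G n) := by
    intro n
    rw [← T.finrank_C_iso (pwIso129 X n), h1]
  have h4 : ∀ n, finrank W.K ((algSys W).C (pw X n)) =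
      finrank W.K (algSpan W (Pool.Agent.Y129.pw X n)) := by
    intro n
    rw [← (algSys W).finrank_C_iso (pwIso129 X n)]
    rfl
  rcases Sys.half (algSys W) T hST X (fun n => (nondeg_iff T _).2 (h n)) with h5 | h5
  · left
    intro n
    have h6 := h5 n
    refine (Submodule.eq_of_le_of_finrank_le (hG.alg n) ?_).symm
    rw [← h3, ← h4, h6]
  · right
    intro ε hε
    obtain ⟨n₀, hn₀⟩ := h5 ε hε
    refine ⟨n₀, fun n hn => ?_⟩
    have h6 := hn₀ n hn
    rw [h3, h4] at h6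
    exact h6

end Pool.Agent.X299
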