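import Pool.Agent.X299.Tate.Semi2

/-!
# The index law for Tate classes in characteristic zero
-/

open CategoryTheory AlgebraicGeometry Filter Topology TensorProduct

open scoped ENNReal

universe u v w

namespace Pool.Agent.X299

open Module
open Pool.Agent.H914 Pool.Agent.H914.VarClass Pool.Agent.H914.VarClass.Obj
  Pool.Agent.H914.WeilCohomology Pool.Agent.H281R3.HT Pool.Agent.TH125.Gal
  Pool.Agent.Y129

variable {k : Type u} [Field k] {𝒱 : VarClass k} {ops : CycleOps 𝒱}
  {W : WeilCohomology.{u, v} ops} {X Y Z : 𝒱.Obj}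
  {Γ : Type w} [Group Γ] {χ : Γ →* W.Kˣ}
  {ρ : ∀ n, Γ →* (W.H (pw X n) ≃ₐ[W.K] W.H (pw X n))}

lemma TG_mul (n : ℕ) {a b : W.H (pw X n)} (ha : a ∈ TG W X χ ρ n) (hb : b ∈ TG W X χ ρ n) :
    a * b ∈ TG W X χ ρ n := by
  refine Submodule.iSup_induction _ (motive := fun a => a * b ∈ TG W X χ ρ n) ha ?_ ?_ ?_
  · intro i a ha
    refine Submodule.iSup_induction _ (motive := fun b => a * b ∈ TG W X χ ρ n) hb ?_ ?_ ?_
    · intro j b hb
      exact le_iSup (fun j => tateClasses χ (W.gr (pw X n)) (ρ n) j) (i + j) (tate_mul ha hb)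
    · rw [mul_zero]; exact Submodule.zero_mem _
    · intro b b' hb hb'
      rw [mul_add]
      exact Submodule.add_mem _ hb hb'
  · rw [zero_mul]; exact Submodule.zero_mem _
  · intro b b' hb hb'
    rw [add_mul]
    exact Submodule.add_mem _ hb hb'

lemma powSys_TG (h : PowerAction W X χ ρ) : PowSys W X (TG W X χ ρ) where
  stable := h.stable
  alg := h.algSpan_le
  mul n a ha b hb := TG_mul n ha hb
  even n a ha := by
    refine Submodule.iSup_induction _
      (motive := fun a => a ∈ Pool.Agent.Y133.Half.PH W (pw X n) 0) ha ?_ ?_ ?_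
    · intro j a ha
      exact Pool.Agent.Y133.Half.PH.of' (by omega) ha.1
    · exact Submodule.zero_mem _
    · intro b b' hb hb'
      exact Submodule.add_mem _ hb hb'

lemma perfect_homog (h : PairsPerfectly W X (TG W X χ ρ)) : TatePerfect W X χ ρ := by
  intro n j c hc hc0
  by_contra hcon
  push Not at hcon
  apply hc0
  apply h n c (le_iSup (fun j => tateClasses χ (W.gr (pw X n)) (ρ n) j) j hc)
  intro d hd
  refine Submodule.iSup_induction _ (motive := fun d => W.tr (pw X n) (c * d) = 0) hd ?_ ?_ ?_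
  · intro i d hd
    exact hcon i d hd
  · rw [mul_zero, map_zero]
  · intro b b' hb hb'
    rw [mul_add, map_add, hb, hb', add_zero]

lemma pairs_of_homog (h : TatePerfect W X χ ρ) : PairsPerfectly W X (TG W X χ ρ) := by
  intro n c hc hc0
  classical
  obtain ⟨f, hf, rfl⟩ := (Submodule.mem_iSup_iff_exists_finsupp _ _).1 hc
  rw [Finsupp.sum]
  apply Finset.sum_eq_zero
  intro j _
  by_contra hj
  obtain ⟨i, d, hd, hd0⟩ := h n j (f j) (hf j) hj
  apply hd0
  have hij : j + i = (pw X n).dim := by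
    by_contra hij
    exact hd0 (W.tr_eq_zero (W.mul_mem (hf j).1 hd.1) (by omega))
  have h1 := hc0 d (le_iSup (fun j => tateClasses χ (W.gr (pw X n)) (ρ n) j) i hd)
  rw [Finsupp.sum, Finset.sum_mul, map_sum, Finset.sum_eq_single j] at h1
  · exact h1
  · intro l _ hl
    exact W.tr_eq_zero (W.mul_mem (hf l).1 hd.1) (by omega)
  · intro hj'
    rw [Finsupp.notMem_support_iff.1 hj', zero_mul, map_zero]

/-- The dimension of the space of the algebraic classes. -/
lemma finrank_algSpan_eq (n : ℕ) : finrank W.K (algSpan W (pw X n)) =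
    ∑ j ∈ Finset.range ((pw X n).dim + 1), finrank W.K (Submodule.span W.K
      (algClasses W (pw X n) j)) := by
  rw [algSpan, Submodule.span_iUnion]
  apply finrank_iSup_eq_sum (A := fun j => Submodule.span W.K (algClasses W (pw X n) j))
  · exact (indep_even W (pw X n)).mono fun j => Submodule.span_le.2 fun c hc => alg_gr hc
  · intro j hj
    rw [eq_bot_iff]
    refine (Submodule.span_le.2 fun c hc => alg_gr hc).trans (le_of_eq ?_)
    exact W.gr_eq_bot (pw X n) (2 * j) (by omega)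

/-- The classes in the top degree are Tate classes. -/
lemma exists_top' (h : PowerAction W X χ ρ) (n : ℕ) (hX : Nontrivial (W.H (pw X n))) :
    ∃ z ∈ TG W X χ ρ n, W.tr (pw X n) z = 1 := by
  set Y := pw X n with hY
  obtain ⟨a, ha⟩ : ∃ a, W.tr Y ((1 : W.H Y) * a) ≠ 0 := by
    by_contra hcon
    push Not at hcon
    exact one_ne_zero (W.nondeg (1 : W.H Y) hcon)
  rw [one_mul] at ha
  -- the component in the top degree
  obtain ⟨b, hb, hb1⟩ : ∃ b ∈ W.gr Y (2 * Y.dim), W.tr Y b ≠ 0 := by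
    by_contra hcon
    push Not at hcon
    apply ha
    refine gr_induction (W.isInternal Y) (p := fun a => W.tr Y a = 0) ?_ ?_ a
    · intro i a ha
      by_cases hi : i = 2 * Y.dim
      · subst hi; exact hcon a ha
      · exact W.tr_eq_zero ha hi
    · intro a b ha hb
      rw [map_add, ha, hb, add_zero]
  refine ⟨(W.tr Y b)⁻¹ • b, Submodule.smul_mem _ _ ?_, by
    rw [map_smul, smul_eq_mul, inv_mul_cancel₀ hb1]⟩
  refine le_iSup (fun j => tateClasses χ (W.gr (pw X n)) (ρ n) j) Y.dim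
    ⟨hb, ⊤, inferInstance, fun g _ => ?_⟩
  have h0 : ρ n g b ∈ W.gr Y (2 * Y.dim) := (h.galois n).gr_mem g _ b hb
  rw [← sub_eq_zero]
  apply W.nondeg
  intro y
  refine gr_induction (W.isInternal (pw X n)) (p := fun y =>
    W.tr (pw X n) ((ρ n g b - (χ g : W.K) ^ Y.dim • b) * y) = 0) ?_ ?_ y
  · intro i y hy
    by_cases hi : i = 0
    · subst hi
      rw [W.gr_zero, Submodule.mem_span_singleton] at hy
      obtain ⟨r, rfl⟩ := hy
      rw [mul_smul_comm, mul_one, map_smul, map_sub, map_smul, (h.galois n).tr_act,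
        smul_eq_mul, smul_eq_mul, sub_self, mul_zero]
    · exact W.tr_eq_zero (W.mul_mem (Submodule.sub_mem _ h0 (Submodule.smul_mem _ _ hb)) hy)
        (by rw [← hY]; omega)
  · intro a b ha hb
    rw [mul_add, map_add, ha, hb, add_zero]

lemma exists_top (h : PowerAction W X χ ρ) (hX : Nontrivial (W.H X)) :
    ∃ z ∈ TG W X χ ρ 0, W.tr X z = 1 := exists_top' h 0 hX

/-! ### The rank of the pairing -/

lemma tateNull_le (n j : ℕ) :
    tateNull W X χ ρ n j ≤ tateClasses χ (W.gr (pw X n)) (ρ n) j := fun _ h => h.1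

lemma num_eq_iSup (h : PowerAction W X χ ρ) (hX : ∃ z ∈ TG W X χ ρ 0, W.tr X z = 1) (n : ℕ) :
    (sysOf (powSys_TG h) hX).Num (pw X n) = ⨆ j, tateNull W X χ ρ n j := by
  classical
  have hC : (sysOf (powSys_TG h) hX).C (pw X n) = TG W X χ ρ n := hull_pw (powSys_TG h) n
  apply le_antisymm
  · rintro c ⟨hc, hc'⟩
    rw [hC] at hc hc'
    obtain ⟨f, hf, rfl⟩ := (Submodule.mem_iSup_iff_exists_finsupp _ _).1 hc
    rw [Finsupp.sum]
    apply Submodule.sum_mem
    intro j _
    apply Submodule.mem_iSup_of_mem j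
    refine ⟨hf j, fun i d hd => ?_⟩
    by_cases hij : j + i = (pw X n).dim
    · have h1 := hc' d (le_iSup (fun j => tateClasses χ (W.gr (pw X n)) (ρ n) j) i hd)
      rw [Finsupp.sum, Finset.sum_mul, map_sum, Finset.sum_eq_single j] at h1
      · exact h1
      · intro l _ hl
        exact W.tr_eq_zero (W.mul_mem (hf l).1 hd.1) (by omega)
      · intro hj'
        rw [Finsupp.notMem_support_iff.1 hj', zero_mul, map_zero]
    · exact W.tr_eq_zero (W.mul_mem (hf j).1 hd.1) (by omega)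
  · apply iSup_le
    rintro j c ⟨hc, hc'⟩
    refine ⟨?_, fun d hd => ?_⟩
    · rw [hC]
      exact le_iSup (fun j => tateClasses χ (W.gr (pw X n)) (ρ n) j) j hc
    · rw [hC] at hd
      refine Submodule.iSup_induction _ (motive := fun d => W.tr (pw X n) (c * d) = 0) hd
        ?_ ?_ ?_
      · intro i d hd
        exact hc' i d hd
      · rw [mul_zero, map_zero]
      · intro b b' hb hb'
        rw [mul_add, map_add, hb, hb', add_zero]

lemma tateRank_add (n : ℕ) : tateRank W X χ ρ n +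
    finrank W.K (⨆ j, tateNull W X χ ρ n j : Submodule W.K (W.H (pw X n))) =
      tateDim W X χ ρ n := by
  have h1 : finrank W.K (⨆ j, tateNull W X χ ρ n j : Submodule W.K (W.H (pw X n))) =
      ∑ j ∈ Finset.range ((pw X n).dim + 1), finrank W.K (tateNull W X χ ρ n j) := by
    apply finrank_iSup_eq_sum
    · exact (indep_even W (pw X n)).mono fun j => (tateNull_le n j).trans (tateClasses_le n j)
    · intro j hj
      rw [eq_bot_iff]
      refine ((tateNull_le n j).trans (tateClasses_le n j)).trans (le_of_eq ?_)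
      exact W.gr_eq_bot (pw X n) (2 * j) (by omega)
  rw [h1, tateRank, tateDim, ← Finset.sum_add_distrib]
  refine Finset.sum_congr rfl fun j _ => ?_
  have h2 := Submodule.finrank_quotient_add_finrank
    ((tateNull W X χ ρ n j).submoduleOf (tateClasses χ (W.gr (pw X n)) (ρ n) j))
  have h3 : finrank W.K ((tateNull W X χ ρ n j).submoduleOf
      (tateClasses χ (W.gr (pw X n)) (ρ n) j)) = finrank W.K (tateNull W X χ ρ n j) :=
    (Submodule.submoduleOfEquivOfLe (tateNull_le n j)).finrank_eq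
  rw [h3] at h2
  exact h2

lemma a_eq_tateRank (h : PowerAction W X χ ρ) (hX : ∃ z ∈ TG W X χ ρ 0, W.tr X z = 1) (n : ℕ) :
    (sysOf (powSys_TG h) hX).a (pw X n) = tateRank W X χ ρ n := by
  have h1 := (sysOf (powSys_TG h) hX).a_add_num (pw X n)
  have hC : (sysOf (powSys_TG h) hX).C (pw X n) = TG W X χ ρ n := hull_pw (powSys_TG h) n
  rw [num_eq_iSup h, hC, finrank_TG, ← tateRank_add] at h1
  omega

lemma cycRank_le_tateRank (h : PowerAction W X χ ρ) (hX : Nontrivial (W.H X)) (n : ℕ) :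
    cycRank ops (pw X n) ≤ tateRank W X χ ρ n := by
  rw [← a_eq_tateRank h (exists_top h hX)]
  refine (le_of_eq (Pool.Agent.Y133.Half.numDim_eq_cycRank W (pw X n)).symm).trans ?_
  exact a_le_a (fun Z => alg_le_hull (powSys_TG h) (exists_top h hX) Z) _

lemma tateRank_le (n : ℕ) : tateRank W X χ ρ n ≤ tateDim W X χ ρ n := by
  rw [← tateRank_add n]
  exact Nat.le_add_right _ _

lemma tateRank_eq (hp : TatePerfect W X χ ρ) (n : ℕ) :
    tateRank W X χ ρ n = tateDim W X χ ρ n := by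
  have h1 : ∀ j, tateNull W X χ ρ n j = ⊥ := by
    intro j
    rw [eq_bot_iff]
    rintro c ⟨hc, hc'⟩
    rw [Submodule.mem_bot]
    by_contra h0
    obtain ⟨i, d, hd, hd'⟩ := hp n j c hc h0
    exact hd' (hc' i d hd)
  rw [← tateRank_add n]
  simp [h1]

/-- **The zero-one law for semisimplicity.** -/
theorem semisimple_law (h : PowerAction W X χ ρ) (hX : Nontrivial (W.H X))
    (hl : CyclotomicLines W X χ ρ) :
    (∀ n, cycRank ops (pw X n) ≤ tateRank W X χ ρ n ∧
      tateRank W X χ ρ n ≤ tateDim W X χ ρ n ∧ 0 < tateDim W X χ ρ n) ∧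
    ((Semisimple W X ρ ∧ ∀ n, tateRank W X χ ρ n = tateDim W X χ ρ n) ∨
      (¬ Semisimple W X ρ ∧
        Tendsto (fun n => (tateRank W X χ ρ n : ℝ) / tateDim W X χ ρ n) atTop (𝓝 0))) := by
  have hpos : ∀ n, 0 < tateDim W X χ ρ n := by
    intro n
    have h7 := nontrivial_pw (W := W) (X := X) n
    rw [← finrank_TG, Module.finrank_pos_iff]
    exact ⟨⟨⟨1, (powSys_TG h).alg n (one_algSpan _)⟩, 0,
      fun h => one_ne_zero (congrArg Subtype.val h)⟩⟩
  refine ⟨fun n => ⟨cycRank_le_tateRank h hX n, tateRank_le n, hpos n⟩, ?_⟩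
  by_cases hp : TatePerfect W X χ ρ
  · exact Or.inl ⟨semisimple_of_perfect h hp hl, tateRank_eq hp⟩
  right
  refine ⟨fun hs => hp (perfect_of_semisimple h hs), ?_⟩
  rcases zero_one (powSys_TG h) (exists_top h hX) with h1 | h1
  · exact absurd (perfect_homog h1) hp
  rw [Metric.tendsto_atTop]
  intro ε hε
  obtain ⟨N, hN⟩ := exists_nat_gt (1 / ε)
  obtain ⟨n₀, hn₀⟩ := h1 N
  refine ⟨n₀, fun n hn => ?_⟩
  have h2 := hn₀ n hn
  rw [a_eq_tateRank h, finrank_TG] at h2
  have h3 : (0 : ℝ) < tateDim W X χ ρ n := by exact_mod_cast hpos n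
  have h4 : (N : ℝ) * tateRank W X χ ρ n ≤ tateDim W X χ ρ n := by exact_mod_cast h2
  have h5 : (0 : ℝ) ≤ tateRank W X χ ρ n := Nat.cast_nonneg _
  have hN0 : (0 : ℝ) < N := lt_trans (by positivity) hN
  rw [Real.dist_eq, sub_zero, abs_of_nonneg (by positivity), div_lt_iff₀ h3]
  have h6 : 1 < N * ε := by
    rw [div_lt_iff₀ hε] at hN
    exact hN
  have h7 : (tateRank W X χ ρ n : ℝ) ≤ tateDim W X χ ρ n / N := by
    rw [le_div_iff₀ hN0, mul_comm]
    exact h4
  refine lt_of_le_of_lt h7 ?_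
  rw [div_lt_iff₀ hN0]
  nlinarith

/-- **The index law for Tate classes.** -/
theorem index_law [Nontrivial (W.H X)] (h : PowerAction W X χ ρ) :
    ∃ N : ℕ∞, 1 ≤ N ∧
      Tendsto (fun n => (tateDim W X χ ρ n : ℝ≥0∞) / cycRank ops (pw X n)) atTop
        (𝓝 (N : ℝ≥0∞)) ∧
      (∀ n, (tateDim W X χ ρ (2 * n + 1) : ℝ≥0∞) / cycRank ops (pw X (2 * n + 1)) ≤
        (N : ℝ≥0∞)) ∧
      (N = 1 ↔ ∀ n, TateAct χ (W.gr (pw X n)) (algClasses W (pw X n)) (ρ n) ∧
        HomEqNum W (pw X n)) ∧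
      (N ≠ ⊤ → (∀ n, HomEqNum W (pw X n)) ∧ TatePerfect W X χ ρ ∧
        (CyclotomicLines W X χ ρ → Semisimple W X ρ) ∧
        ∃ (r : ℕ) (c : Fin r → Σ m, W.H (pw X m)), (r : ℕ∞) + 1 ≤ N ∧
          (∀ i, ∃ j, (c i).2 ∈ tateClasses χ (W.gr (pw X (c i).1)) (ρ (c i).1) j) ∧
          ∀ n j, tateClasses χ (W.gr (pw X n)) (ρ n) j ≤ genBy W X c n) ∧
      (TatePerfect W X χ ρ →
        (∀ n, TateAct χ (W.gr (pw X n)) (algClasses W (pw X n)) (ρ n)) ∨
        ∀ ε : ℝ, 0 < ε → ∃ n₀ : ℕ, ∀ n ≥ n₀,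
          (∑ j ∈ Finset.range ((pw X n).dim + 1), (finrank W.K (Submodule.span W.K
            (algClasses W (pw X n) j)) : ℝ)) ≤ (1 / 2 + ε) * tateDim W X χ ρ n) := by
  have hG := powSys_TG h
  obtain ⟨N, h1, h2, h3, h4, h5⟩ := Pool.Agent.Y133.Half.stable_index hG.stable hG.alg
  have h2' : IsIndex W X (TG W X χ ρ) N := by
    rw [IsIndex]
    simp only [numRank_eq_sum]
    exact h2
  refine ⟨N, h1, ?_, ?_, ?_, ?_, ?_⟩
  · simp only [finrank_TG] at h2
    exact h2
  · simp only [finrank_TG] at h3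
    exact h3
  · simp only [TG_eq_iff h] at h4
    exact h4
  · intro hN
    have hp := perfect_homog (perfect_of_index hG h2 hN)
    refine ⟨h5 hN, hp, semisimple_of_perfect h hp, ?_⟩
    obtain ⟨r, c, hr, hc, hgen⟩ := exists_generators hG.stable hG.alg h2' hN
      (fun n => ⋃ j, (tateClasses χ (W.gr (pw X n)) (ρ n) j : Set (W.H (pw X n))))
      (fun n => by
        rw [TG, Submodule.span_iUnion]
        simp only [Submodule.span_eq])
    refine ⟨r, c, hr, fun i => ?_, fun n j => ?_⟩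
    · exact Set.mem_iUnion.1 (hc i)
    · refine (le_iSup (fun j => tateClasses χ (W.gr (pw X n)) (ρ n) j) j).trans ?_
      refine le_trans (le_of_eq (hgen n)) (genSys_le_genBy c n)
  · intro hp
    rcases half_of_perfect hG (exists_top h inferInstance) (pairs_of_homog hp) with h6 | h6
    · exact Or.inl fun n => (TG_eq_iff h n).1 (h6 n)
    · right
      intro ε hε
      obtain ⟨n₀, hn₀⟩ := h6 ε hε
      refine ⟨n₀, fun n hn => ?_⟩
      have h7 := hn₀ n hn
      rw [finrank_TG, finrank_algSpan_eq] at h7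
      push_cast at h7
      exact h7

end Pool.Agent.X299
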