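import Pool.Agent.X299.Tate.Idx
import Pool.Agent.X299.Tate.Cramer
import Pool.Agent.X299.Tate.Avg

/-!
# Semisimplicity from the perfectness of the pairing of Tate classes
-/

open CategoryTheory AlgebraicGeometry Filter Topology TensorProduct

open scoped ENNReal

universe u v w

namespace Pool.Agent.X299

open Module
open Pool.Agent.H914 Pool.Agent.H914.VarClass Pool.Agent.H914.VarClass.Obj
  Pool.Agent.H914.WeilCohomology Pool.Agent.H281R3.HT Pool.Agent.TH125.Gal
  Pool.Agent.Y129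

variable {k : Type u} [Field k] {𝒱 : VarClass k} {ops : CycleOps 𝒱}
  {W : WeilCohomology.{u, v} ops} {X Y Z : 𝒱.Obj}

/-! ### Products of pull-backs -/

/-- The product of the pull-backs. -/
noncomputable def tens (W : WeilCohomology.{u, v} ops) {r : ℕ} (q : Fin r → (Y ⟶ Z)) :
    MultilinearMap W.K (fun _ : Fin r => W.H Z) (W.H Y) :=
  (MultilinearMap.mkPiAlgebraFin W.K r (W.H Y)).compLinearMap fun j => (W.map (q j)).toLinearMap

lemma tens_apply {r : ℕ} (q : Fin r → (Y ⟶ Z)) (a : Fin r → W.H Z) :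
    tens W q a = (List.ofFn fun j => W.map (q j) (a j)).prod := by
  simp [tens]

lemma tens_succ {r : ℕ} (q : Fin (r + 1) → (Y ⟶ Z)) (a : Fin (r + 1) → W.H Z) :
    tens W q a = W.map (q 0) (a 0) * tens W (fun j => q j.succ) fun j => a j.succ := by
  rw [tens_apply, tens_apply, List.ofFn_succ, List.prod_cons]

lemma tens_mem {r i : ℕ} (q : Fin r → (Y ⟶ Z)) {a : Fin r → W.H Z}
    (ha : ∀ j, a j ∈ W.gr Z i) : tens W q a ∈ W.gr Y (r * i) := by
  induction r with
  | zero =>
    rw [tens_apply, List.ofFn_zero, List.prod_nil, zero_mul]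
    exact W.one_mem Y
  | succ r ih =>
    rw [tens_succ, show (r + 1) * i = i + r * i by ring]
    exact W.mul_mem (W.map_mem _ (ha 0)) (ih _ fun j => ha j.succ)

lemma map_tens {r : ℕ} (f : Z ⟶ Y) {P : 𝒱.Obj} (q : Fin r → (Y ⟶ P)) (a : Fin r → W.H P) :
    W.map f (tens W q a) = tens W (fun j => f ≫ q j) a := by
  rw [tens_apply, tens_apply, map_list_prod, List.map_ofFn]
  congr 2
  funext j
  exact (W.map_comp f (q j) (a j)).symm

/-- The tensor product of linear forms. -/
lemma exists_tmul_form (f : W.H Y →ₗ[W.K] W.K) (g : W.H Z →ₗ[W.K] W.K) :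
    ∃ F : W.H (Y.prod Z) →ₗ[W.K] W.K, ∀ a b,
      F (W.map (fst Y Z) a * W.map (snd Y Z) b) = f a * g b := by
  refine ⟨(LinearMap.mul' W.K W.K ∘ₗ TensorProduct.map f g) ∘ₗ
    (kappa W Y Z).symm.toLinearMap, fun a b => ?_⟩
  rw [← kappa_tmul]
  simp

/-- Many independent projections. -/
lemma exists_projections (X : 𝒱.Obj) (n r : ℕ) :
    ∃ (M : ℕ) (q : Fin (r + 1) → (pw X M ⟶ pw X n)),
      (∀ j, ∃ s : Fin (n + 1) → Fin (M + 1), ∀ i, q j ≫ pj X n i = pj X M (s i)) ∧
      ∀ W : WeilCohomology.{u, v} ops, ∀ f : Fin (r + 1) → (W.H (pw X n) →ₗ[W.K] W.K),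
        ∃ F : W.H (pw X M) →ₗ[W.K] W.K, ∀ a, F (tens W q a) = ∏ j, f j (a j) := by
  induction r with
  | zero =>
    refine ⟨n, fun _ => 𝟙 _, fun j => ⟨id, fun i => Category.id_comp _⟩, fun W f => ⟨f 0, ?_⟩⟩
    intro a
    rw [tens_apply]
    simp only [List.ofFn_succ, List.ofFn_zero, List.prod_cons, List.prod_nil, mul_one,
      W.map_id]
    simp
  | succ r ih =>
    obtain ⟨M, q, hq, hF⟩ := ih
    obtain ⟨e, p, p', ⟨s, hs⟩, ⟨t, ht⟩, hp, hp'⟩ := exists_glue X n M
    let q' : Fin (r + 1 + 1) → (pw X (n + M + 1) ⟶ pw X n) :=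
      Fin.cons (α := fun _ => (pw X (n + M + 1) ⟶ pw X n)) p fun j => p' ≫ q j
    have hq0 : q' 0 = p := rfl
    have hqs : ∀ j : Fin (r + 1), q' j.succ = p' ≫ q j := fun j => rfl
    refine ⟨n + M + 1, q', ?_, ?_⟩
    · intro j
      refine Fin.cases ⟨s, hs⟩ (fun j => ?_) j
      obtain ⟨s', hs'⟩ := hq j
      refine ⟨fun i => t (s' i), fun i => ?_⟩
      rw [hqs, Category.assoc, hs', ht]
    · intro W f
      obtain ⟨F, hF'⟩ := hF W fun j => f j.succ
      obtain ⟨F', hF''⟩ := exists_tmul_form (W := W) (f 0) F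
      refine ⟨F' ∘ₗ (W.map e).toLinearMap, fun a => ?_⟩
      rw [LinearMap.comp_apply, AlgHom.toLinearMap_apply, map_tens, tens_succ]
      have h1 : tens W (fun j : Fin (r + 1) => e ≫ q' j.succ) (fun j => a j.succ) =
          W.map (snd (pw X n) (pw X M)) (tens W q fun j => a j.succ) := by
        rw [map_tens]
        have h2 : (fun j : Fin (r + 1) => e ≫ q' j.succ) =
            fun j => snd (pw X n) (pw X M) ≫ q j := by
          funext j
          rw [hqs, ← Category.assoc, hp']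
        rw [h2]
      rw [h1, hq0, hp, hF'', hF', Fin.prod_univ_succ (fun j => f j (a j))]

/-! ### The action -/

variable {Γ : Type w} [Group Γ] {χ : Γ →* W.Kˣ}
  {ρ : ∀ n, Γ →* (W.H (pw X n) ≃ₐ[W.K] W.H (pw X n))}

lemma act_tens (h : PowerAction W X χ ρ) {M n r : ℕ} {q : Fin r → (pw X M ⟶ pw X n)}
    (hq : ∀ j, ∃ s : Fin (n + 1) → Fin (M + 1), ∀ i, q j ≫ pj X n i = pj X M (s i)) (g : Γ)
    (a : Fin r → W.H (pw X n)) : ρ M g (tens W q a) = tens W q fun j => ρ n g (a j) := by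
  rw [tens_apply, tens_apply, map_list_prod, List.map_ofFn]
  congr 2
  funext j
  obtain ⟨s, hs⟩ := hq j
  exact h.equiv (q j) s hs g (a j)

/-- The alternating product of pull-backs. -/
noncomputable def alt (W : WeilCohomology.{u, v} ops) {r : ℕ} (q : Fin r → (Y ⟶ Z)) :
    W.H Z [⋀^Fin r]→ₗ[W.K] W.H Y := MultilinearMap.alternatization (tens W q)

lemma alt_apply {r : ℕ} (q : Fin r → (Y ⟶ Z)) (a : Fin r → W.H Z) :
    alt W q a = ∑ σ : Equiv.Perm (Fin r), Equiv.Perm.sign σ • tens W q fun j => a (σ j) := by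
  rw [alt, MultilinearMap.alternatization_apply]
  rfl

lemma alt_mem {r i : ℕ} (q : Fin r → (Y ⟶ Z)) {a : Fin r → W.H Z}
    (ha : ∀ j, a j ∈ W.gr Z i) : alt W q a ∈ W.gr Y (r * i) := by
  rw [alt_apply]
  apply Submodule.sum_mem
  intro σ _
  have h1 := tens_mem q (W := W) fun j => ha (σ j)
  rcases Int.units_eq_one_or (Equiv.Perm.sign σ) with h | h
  · rw [h, one_smul]; exact h1
  · rw [h, Units.neg_smul, one_smul]; exact Submodule.neg_mem _ h1

lemma act_alt (h : PowerAction W X χ ρ) {M n r : ℕ} {q : Fin r → (pw X M ⟶ pw X n)}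
    (hq : ∀ j, ∃ s : Fin (n + 1) → Fin (M + 1), ∀ i, q j ≫ pj X n i = pj X M (s i)) (g : Γ)
    (a : Fin r → W.H (pw X n)) : ρ M g (alt W q a) = alt W q fun j => ρ n g (a j) := by
  rw [alt_apply, alt_apply, map_sum]
  refine Finset.sum_congr rfl fun σ _ => ?_
  have h1 := act_tens h hq g fun j => a (σ j)
  rcases Int.units_eq_one_or (Equiv.Perm.sign σ) with h2 | h2
  · rw [h2, one_smul, one_smul]; exact h1
  · rw [h2, Units.neg_smul, Units.neg_smul, one_smul, one_smul, map_neg, h1]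

/-- The alternating product of a basis is not zero. -/
lemma alt_ne_zero {M n r : ℕ} {q : Fin (r + 1) → (pw X M ⟶ pw X n)}
    (hF : ∀ f : Fin (r + 1) → (W.H (pw X n) →ₗ[W.K] W.K),
        ∃ F : W.H (pw X M) →ₗ[W.K] W.K, ∀ a, F (tens W q a) = ∏ j, f j (a j))
    {U : Submodule W.K (W.H (pw X n))} (b : Basis (Fin (r + 1)) W.K U) :
    alt W q (fun j => (b j : W.H (pw X n))) ≠ 0 := by
  obtain ⟨f, hf⟩ : ∃ f : Fin (r + 1) → (W.H (pw X n) →ₗ[W.K] W.K),
      ∀ i j, f i (b j) = if i = j then 1 else 0 := by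
    have h1 : ∀ i, ∃ f : W.H (pw X n) →ₗ[W.K] W.K, ∀ u : U, f u = b.coord i u := by
      intro i
      obtain ⟨g, hg⟩ := LinearMap.exists_extend (b.coord i)
      exact ⟨g, fun u => congrArg (fun F => F u) hg⟩
    choose f hf using h1
    refine ⟨f, fun i j => ?_⟩
    rw [hf, Basis.coord_apply, Basis.repr_self, Finsupp.single_apply]
    simp only [eq_comm]
  obtain ⟨F, hF⟩ := hF f
  intro h0
  have h1 : F (alt W q fun j => (b j : W.H (pw X n))) = 1 := by
    rw [alt_apply, map_sum, Finset.sum_eq_single (1 : Equiv.Perm (Fin (r + 1)))]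
    · rw [Equiv.Perm.sign_one, one_smul, hF]
      apply Finset.prod_eq_one
      intro j _
      rw [Equiv.Perm.one_apply, hf, if_pos rfl]
    · intro σ _ hσ
      have h2 : F (tens W q fun j => (b (σ j) : W.H (pw X n))) = 0 := by
        rw [hF]
        obtain ⟨j, hj⟩ : ∃ j, σ j ≠ j := by
          by_contra hcon
          push Not at hcon
          exact hσ (Equiv.ext hcon)
        apply Finset.prod_eq_zero (Finset.mem_univ j)
        rw [hf, if_neg fun h => hj h.symm]
      rcases Int.units_eq_one_or (Equiv.Perm.sign σ) with h | h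
      · rw [h, one_smul, h2]
      · rw [h, Units.neg_smul, one_smul, map_neg, h2, neg_zero]
    · intro h; exact absurd (Finset.mem_univ _) h
  rw [h0, map_zero] at h1
  exact zero_ne_one h1

/-- The line spanned by the alternating product of a basis of a stable subspace is stable. -/
lemma alt_line {M n r : ℕ} {q : Fin (r + 1) → (pw X M ⟶ pw X n)}
    {U : Submodule W.K (W.H (pw X n))} (b : Basis (Fin (r + 1)) W.K U) (w : Fin (r + 1) → U) :
    alt W q (fun j => (w j : W.H (pw X n))) =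
      b.det w • alt W q fun j => (b j : W.H (pw X n)) := by
  rw [← sub_eq_zero]
  rw [← Module.forall_dual_apply_eq_zero_iff W.K]
  intro l
  let A : U [⋀^Fin (r + 1)]→ₗ[W.K] W.K :=
    l.compAlternatingMap ((alt W q).compLinearMap U.subtype)
  have h1 := AlternatingMap.eq_smul_basis_det b A
  have h2 := congrArg (fun B => B w) h1
  have h3 : A w = l (alt W q fun j => (w j : W.H (pw X n))) := rfl
  have h4 : A b = l (alt W q fun j => (b j : W.H (pw X n))) := rfl
  simp only [AlternatingMap.smul_apply, smul_eq_mul] at h2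
  rw [map_sub, map_smul, ← h3, ← h4, h2, smul_eq_mul, mul_comm, sub_self]

end Pool.Agent.X299
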