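import Pool.Agent.X299.Tate.Semi
import Pool.Agent.X299.Tate.Defs

/-!
# Semisimplicity from the perfectness of the pairing of Tate classes
-/

open CategoryTheory AlgebraicGeometry Filter Topology TensorProduct

open scoped ENNReal

universe u v w

namespace Pool.Agent.X299

open Module
open Pool.Agent.H914 Pool.Agent.H914.VarClass Pool.Agent.H914.VarClass.Obj
  Pool.Agent.H914.WeilCohomology Pool.Agent.H281R3.HT Pool.Agent.TH125.Gal
  Pool.Agent.Y129

variable {k : Type u} [Field k] {𝒱 : VarClass k} {ops : CycleOps 𝒱}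
  {W : WeilCohomology.{u, v} ops} {X Y Z : 𝒱.Obj}
  {Γ : Type w} [Group Γ] {χ : Γ →* W.Kˣ}
  {ρ : ∀ n, Γ →* (W.H (pw X n) ≃ₐ[W.K] W.H (pw X n))}

/-- The alternating form given by a class. -/
noncomputable def altForm {M n r : ℕ} (q : Fin r → (pw X M ⟶ pw X n)) (η : W.H (pw X M)) :
    W.H (pw X n) [⋀^Fin r]→ₗ[W.K] W.K :=
  (W.tr (pw X M) ∘ₗ LinearMap.mulRight W.K η).compAlternatingMap (alt W q)

lemma altForm_apply {M n r : ℕ} (q : Fin r → (pw X M ⟶ pw X n)) (η : W.H (pw X M))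
    (a : Fin r → W.H (pw X n)) : altForm q η a = W.tr (pw X M) (alt W q a * η) := rfl

lemma altForm_act (h : PowerAction W X χ ρ) {M n r : ℕ} {q : Fin r → (pw X M ⟶ pw X n)}
    (hq : ∀ j, ∃ s : Fin (n + 1) → Fin (M + 1), ∀ i, q j ≫ pj X n i = pj X M (s i))
    {η : W.H (pw X M)} {g : Γ} {j : ℕ} (hη : ρ M g η = (χ g : W.K) ^ j • η)
    (a : Fin r → W.H (pw X n)) :
    altForm q η (fun i => ρ n g (a i)) =
      (((χ g : W.K) ^ j)⁻¹ * (χ g : W.K) ^ (pw X M).dim) * altForm q η a := by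
  have h0 : ((χ g : W.K) ^ j) ≠ 0 := pow_ne_zero _ (Units.ne_zero _)
  have h1 := (h.galois M).tr_act g (alt W q a * η)
  rw [map_mul, hη, act_alt h hq, mul_smul_comm, map_smul, smul_eq_mul] at h1
  rw [altForm_apply, altForm_apply, mul_assoc, ← h1, ← mul_assoc, inv_mul_cancel₀ h0, one_mul]

/-- The action as a representation. -/
noncomputable def rep (ρ : ∀ n, Γ →* (W.H (pw X n) ≃ₐ[W.K] W.H (pw X n))) (n : ℕ) :
    Γ →* Module.End W.K (W.H (pw X n)) where
  toFun g := (ρ n g : W.H (pw X n) ≃ₐ[W.K] W.H (pw X n)).toLinearMap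
  map_one' := by
    apply LinearMap.ext
    intro a
    simp
  map_mul' g g' := by
    apply LinearMap.ext
    intro a
    simp

lemma rep_apply (n : ℕ) (g : Γ) (a : W.H (pw X n)) : rep ρ n g a = ρ n g a := rfl

/-- **Semisimplicity** follows if the pairing of Tate classes is perfect on all powers. -/
theorem semisimple_of_perfect (h : PowerAction W X χ ρ) (hp : TatePerfect W X χ ρ)
    (hl : CyclotomicLines W X χ ρ) : Semisimple W X ρ := by
  intro n i U hUi hU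
  -- a complement in the whole cohomology suffices
  suffices hs : ∃ U' : Submodule W.K (W.H (pw X n)), IsCompl U U' ∧
      ∀ g, ∀ a ∈ U', ρ n g a ∈ U' by
    obtain ⟨U', hc, hU'⟩ := hs
    refine ⟨U' ⊓ W.gr (pw X n) i, inf_le_right, fun g a ha => ⟨hU' g a ha.1,
      (h.galois n).gr_mem g i a ha.2⟩, ?_, ?_⟩
    · rw [eq_bot_iff, ← inf_assoc]
      exact inf_le_left.trans (le_of_eq hc.inf_eq_bot)
    · rw [← sup_inf_assoc_of_le _ hUi, hc.sup_eq_top, top_inf_eq]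
  rcases Nat.eq_zero_or_pos (finrank W.K U) with h0 | h0
  · rw [Submodule.finrank_eq_zero] at h0
    subst h0
    exact ⟨⊤, isCompl_bot_top, fun g a _ => Submodule.mem_top⟩
  obtain ⟨r, hr⟩ : ∃ r, finrank W.K U = r + 1 := ⟨finrank W.K U - 1, by omega⟩
  let b : Basis (Fin (r + 1)) W.K U := finBasisOfFinrankEq W.K U hr
  obtain ⟨M, q, hq, hF⟩ := exists_projections (ops := ops) X n r
  set ξ := alt W q (fun j => (b j : W.H (pw X n))) with hξ
  have hξ0 : ξ ≠ 0 := alt_ne_zero (hF W) b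
  have hξi : ξ ∈ W.gr (pw X M) ((r + 1) * i) := alt_mem q fun j => hUi (b j).2
  have hξl : ∀ g, ∃ a : W.K, ρ M g ξ = a • ξ := by
    intro g
    refine ⟨b.det fun j => ⟨ρ n g (b j), hU g _ (b j).2⟩, ?_⟩
    rw [hξ, act_alt h hq]
    exact alt_line b fun j => ⟨ρ n g (b j), hU g _ (b j).2⟩
  obtain ⟨j, hj, Δ, hΔ, hΔξ⟩ := hl M _ ξ hξi hξ0 hξl
  obtain ⟨j', η, hη, htr⟩ := hp M j ξ ⟨hj ▸ hξi, Δ, hΔ, hΔξ⟩ hξ0
  obtain ⟨hη1, Δ', hΔ', hη2⟩ := hη
  refine exists_stable_compl (rep ρ n) hU hΔ' (sliceKer_isCompl b (φ := altForm q η) htr) ?_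
  intro g hg v hv
  refine sliceKer_stable (g := rep ρ n g) (h := rep ρ n g⁻¹) (fun v => ?_)
    (fun a => altForm_act h hq (hη2 g hg) a) (fun u hu => hU g⁻¹ u hu) hv
  rw [← Module.End.mul_apply, ← map_mul, mul_inv_cancel, map_one, Module.End.one_apply]

/-! ### The converse -/

lemma tateClasses_act (h : PowerAction W X χ ρ) {n j : ℕ} (g : Γ) {c : W.H (pw X n)}
    (hc : c ∈ tateClasses χ (W.gr (pw X n)) (ρ n) j) :
    ρ n g c ∈ tateClasses χ (W.gr (pw X n)) (ρ n) j := by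
  obtain ⟨h1, Δ, hΔ, h2⟩ := hc
  have h3 : (Δ.comap (MulAut.conj g⁻¹).toMonoidHom).FiniteIndex := by
    refine ⟨?_⟩
    rw [Subgroup.index_comap_of_surjective _ (MulAut.conj g⁻¹).surjective]
    exact hΔ.index_ne_zero
  refine ⟨(h.galois n).gr_mem g _ c h1, Δ.comap (MulAut.conj g⁻¹).toMonoidHom, h3,
    fun s hs => ?_⟩
  have h4 : g⁻¹ * s * g ∈ Δ := by
    have h5 : (MulAut.conj g⁻¹) s ∈ Δ := hs
    rwa [MulAut.conj_apply, inv_inv] at h5
  have h5 := h2 _ h4
  have h6 : χ (g⁻¹ * s * g) = χ s := by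
    rw [map_mul, map_mul, map_inv, mul_comm, mul_inv_cancel_left]
  rw [h6] at h5
  have h7 : ρ n s (ρ n g c) = ρ n g (ρ n (g⁻¹ * s * g) c) := by
    rw [← AlgEquiv.mul_apply, ← AlgEquiv.mul_apply, ← map_mul, ← map_mul]
    congr 2
    group
  rw [h7, h5, map_smul]

/-- Semisimplicity implies the perfectness of the pairing. -/
theorem perfect_of_semisimple (h : PowerAction W X χ ρ) (hs : Semisimple W X ρ) :
    TatePerfect W X χ ρ := by
  intro n j c₀ hc₀ hc₀0
  by_contra hcon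
  push Not at hcon
  apply hc₀0
  have hj : j ≤ (pw X n).dim := by
    by_contra hj
    have h1 := hc₀.1
    rw [W.gr_eq_bot _ _ (by omega), Submodule.mem_bot] at h1
    exact hc₀0 h1
  set T := tateClasses χ (W.gr (pw X n)) (ρ n) with hT
  set d := (pw X n).dim with hd
  -- the Tate classes which are orthogonal to all Tate classes
  let N : Submodule W.K (W.H (pw X n)) :=
    { carrier := {c | c ∈ T j ∧ ∀ t ∈ T (d - j), W.tr (pw X n) (c * t) = 0}
      zero_mem' := ⟨zero_mem _, fun t _ => by rw [zero_mul, map_zero]⟩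
      add_mem' := fun {a b} ha hb => ⟨add_mem ha.1 hb.1, fun t ht => by
        rw [add_mul, map_add, ha.2 t ht, hb.2 t ht, add_zero]⟩
      smul_mem' := fun r a ha => ⟨Submodule.smul_mem _ _ ha.1, fun t ht => by
        rw [smul_mul_assoc, map_smul, ha.2 t ht, smul_zero]⟩ }
  have hNact : ∀ g, ∀ c ∈ N, ρ n g c ∈ N := by
    rintro g c ⟨h1, h2⟩
    refine ⟨tateClasses_act h g h1, fun t ht => ?_⟩
    have h3 := (h.galois n).tr_act g (c * ρ n g⁻¹ t)
    rw [map_mul, h2 _ (tateClasses_act h g⁻¹ ht), mul_zero, ← AlgEquiv.mul_apply, ← map_mul,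
      mul_inv_cancel, map_one, AlgEquiv.one_apply] at h3
    exact h3
  -- its orthogonal complement
  let A : Submodule W.K (W.H (pw X n)) :=
    { carrier := {y | y ∈ W.gr (pw X n) (2 * (d - j)) ∧ ∀ c ∈ N, W.tr (pw X n) (c * y) = 0}
      zero_mem' := ⟨zero_mem _, fun t _ => by rw [mul_zero, map_zero]⟩
      add_mem' := fun {a b} ha hb => ⟨add_mem ha.1 hb.1, fun t ht => by
        rw [mul_add, map_add, ha.2 t ht, hb.2 t ht, add_zero]⟩
      smul_mem' := fun r a ha => ⟨Submodule.smul_mem _ _ ha.1, fun t ht => by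
        rw [mul_smul_comm, map_smul, ha.2 t ht, smul_zero]⟩ }
  have hAact : ∀ g, ∀ y ∈ A, ρ n g y ∈ A := by
    rintro g y ⟨h1, h2⟩
    refine ⟨(h.galois n).gr_mem g _ y h1, fun c hc => ?_⟩
    have h3 := (h.galois n).tr_act g (ρ n g⁻¹ c * y)
    rw [map_mul, h2 _ (hNact g⁻¹ c hc), mul_zero, ← AlgEquiv.mul_apply, ← map_mul,
      mul_inv_cancel, map_one, AlgEquiv.one_apply] at h3
    exact h3
  obtain ⟨B, hBi, hBact, hAB, hAB'⟩ := hs n _ A (fun y hy => hy.1) hAact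
  -- a subgroup of finite index which acts on `N` by `χ ^ j`
  obtain ⟨Δ, hΔ, hΔN⟩ : ∃ Δ : Subgroup Γ, Δ.FiniteIndex ∧ ∀ g ∈ Δ, ∀ c ∈ N,
      ρ n g c = (χ g : W.K) ^ j • c := by
    let b := Module.finBasis W.K N
    have h1 : ∀ i, ∃ Δ : Subgroup Γ, Δ.FiniteIndex ∧ ∀ g ∈ Δ,
        ρ n g (b i : W.H (pw X n)) = (χ g : W.K) ^ j • (b i : W.H (pw X n)) :=
      fun i => (b i).2.1.2
    choose Δ hΔ h2 using h1
    refine ⟨⨅ i, Δ i, Subgroup.finiteIndex_iInf hΔ, fun g hg c hc => ?_⟩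
    have h3 : c = ∑ i, b.repr ⟨c, hc⟩ i • (b i : W.H (pw X n)) := by
      have h6 := congrArg (fun x : N => (x : W.H (pw X n))) (b.sum_repr ⟨c, hc⟩)
      simp only [Submodule.coe_sum, Submodule.coe_smul] at h6
      exact h6.symm
    rw [h3, map_sum, Finset.smul_sum]
    refine Finset.sum_congr rfl fun i _ => ?_
    rw [map_smul, h2 i g ((Subgroup.mem_iInf.1 hg) i), smul_comm]
  have hBT : B ≤ T (d - j) := by
    intro y hy
    refine ⟨hBi hy, Δ, hΔ, fun g hg => ?_⟩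
    have h0 : ((χ g : W.K) ^ j) ≠ 0 := pow_ne_zero _ (Units.ne_zero _)
    have h1 : ρ n g y - (χ g : W.K) ^ (d - j) • y ∈ B :=
      Submodule.sub_mem _ (hBact g y hy) (Submodule.smul_mem _ _ hy)
    have h2 : ρ n g y - (χ g : W.K) ^ (d - j) • y ∈ A := by
      refine ⟨hBi h1, fun c hc => ?_⟩
      have h3 := (h.galois n).tr_act g (c * y)
      rw [map_mul, hΔN g hg c hc, smul_mul_assoc, map_smul, smul_eq_mul] at h3
      have h4 : (χ g : W.K) ^ d = (χ g : W.K) ^ j * (χ g : W.K) ^ (d - j) := by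
        rw [← pow_add]; congr 1; omega
      rw [h4, mul_assoc] at h3
      have h5 := mul_left_cancel₀ h0 h3
      rw [mul_sub, map_sub, h5, mul_smul_comm, map_smul, smul_eq_mul, sub_self]
    have h3 : ρ n g y - (χ g : W.K) ^ (d - j) • y ∈ A ⊓ B := ⟨h2, h1⟩
    rw [hAB, Submodule.mem_bot] at h3
    exact sub_eq_zero.1 h3
  have hTA : T (d - j) ≤ A := fun t ht => ⟨ht.1, fun c hc => hc.2 t ht⟩
  have hB0 : B = ⊥ := by
    rw [eq_bot_iff, ← hAB]
    exact le_inf (hBT.trans hTA) le_rfl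
  rw [hB0, sup_bot_eq] at hAB'
  have hcN : c₀ ∈ N := ⟨hc₀, fun t ht => hcon _ t ht⟩
  apply W.nondeg
  intro y
  refine gr_induction (W.isInternal (pw X n)) (p := fun y => W.tr (pw X n) (c₀ * y) = 0)
    ?_ ?_ y
  · intro i y hy
    by_cases hi : i = 2 * (d - j)
    · subst hi
      rw [← hAB'] at hy
      exact hy.2 c₀ hcN
    · exact W.tr_eq_zero (W.mul_mem hc₀.1 hy) (by omega)
  · intro y y' hy hy'
    rw [mul_add, map_add, hy, hy', add_zero]

end Pool.Agent.X299
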