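import Pool.Agent.Y133.Half.Index2

/-!
# The system of classes generated by a system on the powers of a variety
-/

open CategoryTheory AlgebraicGeometry

universe u v

namespace Pool.Agent.X299

open Module
open Pool.Agent.H914 Pool.Agent.H914.VarClass Pool.Agent.H914.VarClass.Obj
  Pool.Agent.H914.WeilCohomology Pool.Agent.H281R3.HT Pool.Agent.Y133.Half
  Pool.Agent.W536.RR

variable {k : Type u} [Field k] {𝒱 : VarClass k} {ops : CycleOps 𝒱}
  {W : WeilCohomology.{u, v} ops} {X Y Z Z' P Q : 𝒱.Obj}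

/-- A system of subspaces of even classes on the powers of `X` which contains the algebraic classes
and is stable under algebraic correspondences and products. -/
structure PowSys (W : WeilCohomology.{u, v} ops) (X : 𝒱.Obj)
    (G : ∀ n, Submodule W.K (W.H (Pool.Agent.Y129.pw X n))) : Prop where
  stable : Pool.Agent.Y129.StableSystem W X G
  alg : ∀ n, algSpan W (Pool.Agent.Y129.pw X n) ≤ G n
  mul : ∀ n, ∀ a ∈ G n, ∀ b ∈ G n, a * b ∈ G n
  even : ∀ n, ∀ a ∈ G n, a ∈ PH W (Pool.Agent.Y129.pw X n) 0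

/-- The span of the images of the members of `G` under algebraic correspondences. -/
def hull (W : WeilCohomology.{u, v} ops) (X : 𝒱.Obj)
    (G : ∀ n, Submodule W.K (W.H (Pool.Agent.Y129.pw X n))) (Z : 𝒱.Obj) :
    Submodule W.K (W.H Z) :=
  Submodule.span W.K {c | ∃ n, ∃ f ∈ Pool.Agent.Y129.CC W (Pool.Agent.Y129.pw X n) Z,
    ∃ a ∈ G n, f a = c}

variable {G : ∀ n, Submodule W.K (W.H (Pool.Agent.Y129.pw X n))}

lemma hull_op {u : W.H Z →ₗ[W.K] W.H Z'} (hu : u ∈ Pool.Agent.Y129.CC W Z Z') {c : W.H Z}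
    (hc : c ∈ hull W X G Z) : u c ∈ hull W X G Z' := by
  induction hc using Submodule.span_induction with
  | mem c hc =>
    obtain ⟨n, f, hf, a, ha, rfl⟩ := hc
    exact Submodule.subset_span ⟨n, u ∘ₗ f, Pool.Agent.Y129.isCat_CC.comp_mem hu hf, a, ha, rfl⟩
  | zero => rw [map_zero]; exact Submodule.zero_mem _
  | add x y _ _ hx hy => rw [map_add]; exact Submodule.add_mem _ hx hy
  | smul r x _ hx => rw [map_smul]; exact Submodule.smul_mem _ _ hx

lemma push_CC (f : Y ⟶ Z) : W.push f ∈ Pool.Agent.Y129.CC W Y Z := by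
  have h : W.corr (W.push (Obj.lift (𝟙 Y) f) (1 : W.H Y)) = W.push f := by
    apply LinearMap.ext
    intro a
    rw [corr_apply, ← W.push_mul, one_mul, ← W.map_comp, ← W.push_comp,
      Obj.lift_fst, Obj.lift_snd, W.map_id]
  rw [← h]
  exact Pool.Agent.Y129.map_corr_mem (algSpan_push _ one_mem_algSpan)

lemma map_CC (f : Y ⟶ Z) : (W.map f).toLinearMap ∈ Pool.Agent.Y129.CC W Z Y := by
  have h : W.corr (W.push (Obj.lift f (𝟙 Y)) (1 : W.H Y)) = (W.map f).toLinearMap := by
    apply LinearMap.ext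
    intro a
    rw [corr_apply, ← W.push_mul, one_mul, ← W.map_comp, ← W.push_comp,
      Obj.lift_fst, Obj.lift_snd, W.push_id]
    rfl
  rw [← h]
  exact Pool.Agent.Y129.map_corr_mem (algSpan_push _ one_mem_algSpan)

lemma mul_CC {c : W.H Z} (hc : c ∈ algSpan W Z) :
    LinearMap.mulLeft W.K c ∈ Pool.Agent.Y129.CC W Z Z := by
  have h : W.corr (W.push (diag Z) c) = LinearMap.mulLeft W.K c := by
    apply LinearMap.ext
    intro a
    rw [W.corr_diag]
    rfl
  rw [← h]
  exact Pool.Agent.Y129.map_corr_mem (algSpan_push _ hc)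

lemma hull_map (f : Z' ⟶ Z) {c : W.H Z} (hc : c ∈ hull W X G Z) :
    W.map f c ∈ hull W X G Z' := hull_op (map_CC f) hc

lemma hull_push (f : Z ⟶ Z') {c : W.H Z} (hc : c ∈ hull W X G Z) :
    W.push f c ∈ hull W X G Z' := hull_op (push_CC f) hc

lemma hull_algMul {z : W.H Z} (hz : z ∈ algSpan W Z) {c : W.H Z} (hc : c ∈ hull W X G Z) :
    z * c ∈ hull W X G Z := hull_op (mul_CC hz) hc

/-- The exterior product with the image under a correspondence, on the left. -/
lemma xp_corr_left (γ : W.H (P.prod Z)) (a : W.H P) (d : W.H Z') :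
    xp W (W.corr γ a) d =
      W.push (Obj.lift (fst (P.prod Z) Z' ≫ snd P Z) (snd (P.prod Z) Z'))
        (W.map (fst (P.prod Z) Z') γ *
          W.map (Obj.lift (fst (P.prod Z) Z' ≫ fst P Z) (snd (P.prod Z) Z')) (xp W a d)) := by
  apply W.tr_ext
  intro e
  refine W.kunneth_induction (p := fun e => W.tr (Z.prod Z') (xp W (W.corr γ a) d * e) =
    W.tr (Z.prod Z') (W.push (Obj.lift (fst (P.prod Z) Z' ≫ snd P Z) (snd (P.prod Z) Z'))
        (W.map (fst (P.prod Z) Z') γ *
          W.map (Obj.lift (fst (P.prod Z) Z' ≫ fst P Z) (snd (P.prod Z) Z')) (xp W a d)) * e))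
      ?_ ?_ e
  · intro e e' he he'
    rw [mul_add, mul_add, map_add, map_add, he, he']
  intro i j e he e' he'
  rw [W.tr_push, xp, xp, map_mul (W.map (Obj.lift (fst (P.prod Z) Z' ≫ fst P Z) _)),
    map_mul (W.map (Obj.lift (fst (P.prod Z) Z' ≫ snd P Z) _)), ← W.map_comp, ← W.map_comp,
    ← W.map_comp, ← W.map_comp, Obj.lift_fst, Obj.lift_snd, Obj.lift_fst, Obj.lift_snd,
    W.map_comp, W.map_comp]
  -- move the class `e` to the left of `d`
  refine gr_induction (W.isInternal Z') (p := fun d =>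
    W.tr (Z.prod Z') (W.map (fst Z Z') (W.corr γ a) * W.map (snd Z Z') d *
      (W.map (fst Z Z') e * W.map (snd Z Z') e')) =
    W.tr ((P.prod Z).prod Z') (W.map (fst (P.prod Z) Z') γ *
      (W.map (fst (P.prod Z) Z') (W.map (fst P Z) a) * W.map (snd (P.prod Z) Z') d) *
        (W.map (fst (P.prod Z) Z') (W.map (snd P Z) e) * W.map (snd (P.prod Z) Z') e')))
    ?_ ?_ d
  · intro l d hd
    have e1 : W.map (snd Z Z') d * W.map (fst Z Z') e =
        (-1 : W.K) ^ (l * i) • (W.map (fst Z Z') e * W.map (snd Z Z') d) :=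
      W.comm (W.map_mem _ hd) (W.map_mem _ he)
    have e2 : W.map (snd (P.prod Z) Z') d * W.map (fst (P.prod Z) Z') (W.map (snd P Z) e) =
        (-1 : W.K) ^ (l * i) • (W.map (fst (P.prod Z) Z') (W.map (snd P Z) e) *
          W.map (snd (P.prod Z) Z') d) :=
      W.comm (W.map_mem _ hd) (W.map_mem _ (W.map_mem _ he))
    have e3 : W.map (fst Z Z') (W.corr γ a) * W.map (snd Z Z') d *
        (W.map (fst Z Z') e * W.map (snd Z Z') e') =
        (-1 : W.K) ^ (l * i) • (W.map (fst Z Z') (W.corr γ a * e) * W.map (snd Z Z') (d * e')) := by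
      rw [mul_assoc, ← mul_assoc (W.map (snd Z Z') d), e1, smul_mul_assoc, mul_smul_comm,
        map_mul, map_mul]
      simp only [mul_assoc]
    have e4 : W.map (fst (P.prod Z) Z') γ *
      (W.map (fst (P.prod Z) Z') (W.map (fst P Z) a) * W.map (snd (P.prod Z) Z') d) *
        (W.map (fst (P.prod Z) Z') (W.map (snd P Z) e) * W.map (snd (P.prod Z) Z') e') =
        (-1 : W.K) ^ (l * i) • (W.map (fst (P.prod Z) Z') (γ * W.map (fst P Z) a *
          W.map (snd P Z) e) * W.map (snd (P.prod Z) Z') (d * e')) := by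
      have h5 : ∀ A B D E E' : W.H ((P.prod Z).prod Z'),
          A * (B * D) * (E * E') = A * B * ((D * E) * E') := by
        intro A B D E E'
        simp only [mul_assoc]
      rw [h5, e2, smul_mul_assoc, mul_smul_comm, map_mul, map_mul, map_mul]
      simp only [mul_assoc]
    rw [e3, e4, map_smul, map_smul, W.tr_prod, W.tr_prod, corr_apply, W.tr_push]
  · intro d d' hd hd'
    simp only [map_add, mul_add, add_mul, hd, hd']

lemma swap_xp (x : W.H Y) {y : W.H Z} (hy : y ∈ PH W Z 0) :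
    W.map (swap Z Y) (xp W x y) = xp W y x := by
  rw [xp, map_mul, ← W.map_comp, ← W.map_comp, swap_fst, swap_snd, xp]
  exact (PH.even_comm (PH.map _ hy) _).symm

lemma hull_even (hG : PowSys W X G) {c : W.H Z} (hc : c ∈ hull W X G Z) : c ∈ PH W Z 0 := by
  induction hc using Submodule.span_induction with
  | mem c hc =>
    obtain ⟨n, f, hf, a, ha, rfl⟩ := hc
    obtain ⟨z, hz, rfl⟩ := Pool.Agent.Y129.exists_corr_eq hf
    exact Ev.corr ((algSys W).even hz) _ _ (hG.even n a ha)
  | zero => exact Submodule.zero_mem _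
  | add x y _ _ hx hy => exact Submodule.add_mem _ hx hy
  | smul r x _ hx => exact Submodule.smul_mem _ _ hx

lemma hull_pw (hG : PowSys W X G) (n : ℕ) :
    hull W X G (Pool.Agent.Y129.pw X n) = G n := by
  apply le_antisymm
  · rw [hull, Submodule.span_le]
    rintro c ⟨m, f, hf, a, ha, rfl⟩
    exact hG.stable m n f hf a ha
  · intro a ha
    exact Submodule.subset_span ⟨n, LinearMap.id, Pool.Agent.Y129.isCat_CC.id_mem _, a, ha, rfl⟩

/-- External products of members of `G`. -/
lemma hull_xp_base (hG : PowSys W X G) {m n : ℕ} {a : W.H (Pool.Agent.Y129.pw X m)}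
    (ha : a ∈ G m) {b : W.H (Pool.Agent.Y129.pw X n)} (hb : b ∈ G n) :
    xp W a b ∈ hull W X G ((Pool.Agent.Y129.pw X m).prod (Pool.Agent.Y129.pw X n)) := by
  obtain ⟨e, p, q, _, _, hp, hq⟩ := Pool.Agent.Y129.exists_glue X m n
  have h1 : xp W a b = W.map e (W.map p a * W.map q b) := by
    rw [map_mul, ← W.map_comp, ← W.map_comp, hp, hq, xp]
  rw [h1]
  apply hull_map
  rw [hull_pw hG]
  exact hG.mul _ _ (hG.stable _ _ _ (map_CC p) a ha) _ (hG.stable _ _ _ (map_CC q) b hb)

lemma hull_swap_xp {x : W.H Y} {y : W.H Z} (hy : y ∈ PH W Z 0)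
    (h : xp W x y ∈ hull W X G (Y.prod Z)) : xp W y x ∈ hull W X G (Z.prod Y) := by
  rw [← swap_xp x hy]
  exact hull_map _ h

lemma hull_xp_left {f : W.H P →ₗ[W.K] W.H Z} (hf : f ∈ Pool.Agent.Y129.CC W P Z) {a : W.H P}
    {d : W.H Z'} (h : xp W a d ∈ hull W X G (P.prod Z')) :
    xp W (f a) d ∈ hull W X G (Z.prod Z') := by
  obtain ⟨z, hz, rfl⟩ := Pool.Agent.Y129.exists_corr_eq hf
  rw [xp_corr_left]
  exact hull_push _ (hull_algMul (algSpan_map _ hz) (hull_map _ h))

/-- External products. -/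
lemma hull_xp (hG : PowSys W X G) {c : W.H Z} (hc : c ∈ hull W X G Z) {d : W.H Z'}
    (hd : d ∈ hull W X G Z') : xp W c d ∈ hull W X G (Z.prod Z') := by
  induction hc using Submodule.span_induction with
  | mem c hc =>
    obtain ⟨m, f, hf, a, ha, rfl⟩ := hc
    apply hull_xp_left hf
    induction hd using Submodule.span_induction with
    | mem d hd =>
      obtain ⟨n, g, hg, b, hb, rfl⟩ := hd
      apply hull_swap_xp (hG.even m a ha)
      exact hull_xp_left hg (hull_swap_xp (hG.even n b hb) (hull_xp_base hG ha hb))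
    | zero => rw [xp, map_zero, mul_zero]; exact Submodule.zero_mem _
    | add x y _ _ hx hy => rw [xp_add_right]; exact Submodule.add_mem _ hx hy
    | smul r x _ hx => rw [xp_smul_right]; exact Submodule.smul_mem _ _ hx
  | zero => rw [xp, map_zero, zero_mul]; exact Submodule.zero_mem _
  | add x y _ _ hx hy => rw [xp_add_left]; exact Submodule.add_mem _ hx hy
  | smul r x _ hx => rw [xp_smul_left]; exact Submodule.smul_mem _ _ hx

lemma alg_le_hull (hG : PowSys W X G) (hX : ∃ z ∈ G 0, W.tr X z = 1) (Z : 𝒱.Obj) :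
    algSpan W Z ≤ hull W X G Z := by
  intro c hc
  obtain ⟨z, hz, hz1⟩ : ∃ z ∈ hull W X G X, W.tr X z = 1 := by
    obtain ⟨z, hz, hz1⟩ := hX
    have h2 : hull W X G X = G 0 := hull_pw hG 0
    exact ⟨z, h2.symm ▸ hz, hz1⟩
  have h1 : W.push (snd X Z) (W.map (fst X Z) z * W.map (snd X Z) c) = c := by
    rw [W.push_snd, hz1, one_smul]
  rw [← h1]
  apply hull_push
  rw [PH.even_comm (PH.map _ (hull_even hG hz))]
  exact hull_algMul (algSpan_map _ hc) (hull_map _ hz)

/-- The system of classes generated by a system on the powers of `X`. -/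
noncomputable def sysOf (hG : PowSys W X G) (hX : ∃ z ∈ G 0, W.tr X z = 1) : Sys W where
  C Z := hull W X G Z
  even hc := hull_even hG hc
  one Z := alg_le_hull hG hX Z one_mem_algSpan
  mul := by
    intro Z c d hc hd
    have h1 : c * d = W.map (diag Z) (xp W c d) := by
      rw [xp, map_mul, ← W.map_comp, ← W.map_comp, diag, Obj.lift_fst, Obj.lift_snd, W.map_id,
        W.map_id]
    rw [h1]
    exact hull_map _ (hull_xp hG hc hd)
  map f _ hc := hull_map f hc
  push f _ hc := hull_push f hc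

end Pool.Agent.X299
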